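import Mathlib

/-!
# Shearer's inequality for traces of set families
-/

set_option autoImplicit false

namespace Pool.Agent.LibRank66

/-- Superadditivity of the geometric mean. -/
private lemma geom_super {ι : Type*} (s : Finset ι) (hs : s.Nonempty) (a b : ι → ℝ)
    (ha : ∀ i ∈ s, 0 < a i) (hb : ∀ i ∈ s, 0 < b i) :
    (∏ i ∈ s, a i) ^ ((s.card : ℝ)⁻¹) + (∏ i ∈ s, b i) ^ ((s.card : ℝ)⁻¹)
      ≤ (∏ i ∈ s, (a i + b i)) ^ ((s.card : ℝ)⁻¹) := by
  have hk : (0 : ℝ) < s.card := by exact_mod_cast hs.card_pos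
  have hP : 0 < ∏ i ∈ s, (a i + b i) :=
    Finset.prod_pos fun i hi => add_pos (ha i hi) (hb i hi)
  have key : ∀ c : ι → ℝ, (∀ i ∈ s, 0 < c i) →
      (∏ i ∈ s, c i) ^ ((s.card : ℝ)⁻¹) ≤
        (∏ i ∈ s, (a i + b i)) ^ ((s.card : ℝ)⁻¹) *
          ∑ i ∈ s, (s.card : ℝ)⁻¹ * (c i / (a i + b i)) := by
    intro c hc
    have h := Real.geom_mean_le_arith_mean_weighted s (fun _ => (s.card : ℝ)⁻¹)
      (fun i => c i / (a i + b i)) (fun i _ => by positivity)
      (by
        rw [Finset.sum_const, nsmul_eq_mul]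
        exact mul_inv_cancel₀ hk.ne')
      (fun i hi => (div_pos (hc i hi) (add_pos (ha i hi) (hb i hi))).le)
    have h2 : ∏ i ∈ s, (c i / (a i + b i)) ^ ((s.card : ℝ)⁻¹)
        = (∏ i ∈ s, c i) ^ ((s.card : ℝ)⁻¹) / (∏ i ∈ s, (a i + b i)) ^ ((s.card : ℝ)⁻¹) := by
      rw [Real.finsetProd_rpow s _
        (fun i hi => (div_pos (hc i hi) (add_pos (ha i hi) (hb i hi))).le),
        Finset.prod_div_distrib, Real.div_rpow (Finset.prod_pos hc).le hP.le]
    rw [h2, div_le_iff₀ (Real.rpow_pos_of_pos hP _)] at h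
    linarith [h, mul_comm (∑ i ∈ s, (s.card : ℝ)⁻¹ * (c i / (a i + b i)))
      ((∏ i ∈ s, (a i + b i)) ^ ((s.card : ℝ)⁻¹))]
  have h1 := key a ha
  have h2 := key b hb
  have h3 : ∑ i ∈ s, (s.card : ℝ)⁻¹ * (a i / (a i + b i))
      + ∑ i ∈ s, (s.card : ℝ)⁻¹ * (b i / (a i + b i)) = 1 := by
    rw [← Finset.sum_add_distrib]
    have : ∀ i ∈ s, (s.card : ℝ)⁻¹ * (a i / (a i + b i))
        + (s.card : ℝ)⁻¹ * (b i / (a i + b i)) = (s.card : ℝ)⁻¹ := by
      intro i hi
      have := add_pos (ha i hi) (hb i hi)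
      field_simp
    rw [Finset.sum_congr rfl this, Finset.sum_const, nsmul_eq_mul]
    exact mul_inv_cancel₀ hk.ne'
  calc _ ≤ (∏ i ∈ s, (a i + b i)) ^ ((s.card : ℝ)⁻¹) *
          (∑ i ∈ s, (s.card : ℝ)⁻¹ * (a i / (a i + b i))
            + ∑ i ∈ s, (s.card : ℝ)⁻¹ * (b i / (a i + b i))) := by
        rw [mul_add]
        exact add_le_add h1 h2
    _ = _ := by rw [h3, mul_one]

/-- The combination step. -/
private lemma combine {ι : Type*} (s : Finset ι) (a b : ι → ℕ) (C x y : ℕ)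
    (ha : ∀ i ∈ s, 0 < a i) (hb : ∀ i ∈ s, 0 < b i)
    (hx : x ^ s.card ≤ C * ∏ i ∈ s, a i) (hy : y ^ s.card ≤ C * ∏ i ∈ s, b i) (hC : 0 < C) :
    (x + y) ^ s.card ≤ C * ∏ i ∈ s, (a i + b i) := by
  rcases s.eq_empty_or_nonempty with rfl | hs
  · simpa using (Nat.succ_le_of_lt hC)
  have hk : s.card ≠ 0 := hs.card_pos.ne'
  have hk' : (0 : ℝ) < s.card := by exact_mod_cast hs.card_pos
  have hg := geom_super s hs (fun i => (a i : ℝ)) (fun i => (b i : ℝ))
    (fun i hi => by exact_mod_cast ha i hi) (fun i hi => by exact_mod_cast hb i hi)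
  have root : ∀ (z : ℕ) (c : ι → ℕ), z ^ s.card ≤ C * ∏ i ∈ s, c i →
      (z : ℝ) ≤ (C : ℝ) ^ ((s.card : ℝ)⁻¹) * (∏ i ∈ s, (c i : ℝ)) ^ ((s.card : ℝ)⁻¹) := by
    intro z c h
    have h' : (z : ℝ) ^ s.card ≤ (C : ℝ) * ∏ i ∈ s, (c i : ℝ) := by exact_mod_cast h
    have h0 : (0 : ℝ) ≤ ∏ i ∈ s, (c i : ℝ) := Finset.prod_nonneg fun i _ => Nat.cast_nonneg _
    rw [← Real.mul_rpow (Nat.cast_nonneg _) h0]
    calc (z : ℝ) = ((z : ℝ) ^ s.card) ^ ((s.card : ℝ)⁻¹) :=
          (Real.pow_rpow_inv_natCast (Nat.cast_nonneg _) hk).symm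
      _ ≤ _ := Real.rpow_le_rpow (by positivity) h' (by positivity)
  have h1 := root x a hx
  have h2 := root y b hy
  have hCn : (0 : ℝ) ≤ (C : ℝ) ^ ((s.card : ℝ)⁻¹) := by positivity
  have h3 : ((x : ℝ) + y) ≤ (C : ℝ) ^ ((s.card : ℝ)⁻¹) *
      (∏ i ∈ s, ((a i : ℝ) + b i)) ^ ((s.card : ℝ)⁻¹) := by
    calc ((x : ℝ) + y) ≤ (C : ℝ) ^ ((s.card : ℝ)⁻¹) *
        ((∏ i ∈ s, (a i : ℝ)) ^ ((s.card : ℝ)⁻¹) + (∏ i ∈ s, (b i : ℝ)) ^ ((s.card : ℝ)⁻¹)) := by
          rw [mul_add]
          exact add_le_add h1 h2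
      _ ≤ _ := mul_le_mul_of_nonneg_left hg hCn
  have h4 : ((x : ℝ) + y) ^ s.card ≤ (C : ℝ) * ∏ i ∈ s, ((a i : ℝ) + b i) := by
    have h0 : (0 : ℝ) ≤ ∏ i ∈ s, ((a i : ℝ) + b i) :=
      Finset.prod_nonneg fun i _ => by positivity
    calc ((x : ℝ) + y) ^ s.card ≤ ((C : ℝ) ^ ((s.card : ℝ)⁻¹) *
      (∏ i ∈ s, ((a i : ℝ) + b i)) ^ ((s.card : ℝ)⁻¹)) ^ s.card :=
          pow_le_pow_left₀ (by positivity) h3 _
      _ = _ := by
        rw [mul_pow, Real.rpow_inv_natCast_pow (Nat.cast_nonneg _) hk,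
          Real.rpow_inv_natCast_pow h0 hk]
  exact_mod_cast h4

/-- Shearer: if every element of `V₀` lies in exactly `k` of the sets `V i`, then
`|𝓕| ^ k ≤ ∏ i, |𝓕 restricted to V i|`. -/
theorem shearer {β ι : Type*} [DecidableEq β] [Fintype ι] (𝓕 : Finset (Finset β))
    (V : ι → Finset β) (k : ℕ) (V₀ : Finset β) (hF : ∀ F ∈ 𝓕, F ⊆ V₀)
    (hk : ∀ v ∈ V₀, (Finset.univ.filter fun i => v ∈ V i).card = k) (hne : 𝓕.Nonempty) :
    𝓕.card ^ k ≤ ∏ i, (𝓕.image fun F => F ∩ V i).card := by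
  classical
  induction V₀ using Finset.induction_on generalizing 𝓕 with
  | empty =>
    have h1 : 𝓕.card = 1 := by
      have : 𝓕 = {∅} := by
        rw [Finset.eq_singleton_iff_nonempty_unique_mem]
        exact ⟨hne, fun F h => Finset.subset_empty.1 (hF F h)⟩
      rw [this]; simp
    rw [h1, one_pow]
    exact Nat.one_le_iff_ne_zero.2 (Finset.prod_ne_zero_iff.2 fun i _ =>
      (Finset.card_pos.2 (hne.image _)).ne')
  | insert v V' hv ih =>
    have hk' : ∀ w ∈ V', (Finset.univ.filter fun i => w ∈ V i).card = k :=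
      fun w hw => hk w (Finset.mem_insert_of_mem hw)
    have hkv := hk v (Finset.mem_insert_self v V')
    set I : Finset ι := Finset.univ.filter fun i => v ∈ V i with hI
    set 𝓐 : Finset (Finset β) := 𝓕.filter fun F => v ∉ F with hA
    set 𝓑 : Finset (Finset β) := (𝓕.filter fun F => v ∈ F).image fun F => F.erase v with hB
    have hAsub : ∀ F ∈ 𝓐, F ⊆ V' := by
      intro F hFA
      rw [hA, Finset.mem_filter] at hFA
      intro w hw
      rcases Finset.mem_insert.1 (hF F hFA.1 hw) with rfl | h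
      · exact absurd hw hFA.2
      · exact h
    have hBsub : ∀ F ∈ 𝓑, F ⊆ V' := by
      intro F hFB
      rw [hB, Finset.mem_image] at hFB
      obtain ⟨G, hG, rfl⟩ := hFB
      rw [Finset.mem_filter] at hG
      intro w hw
      rw [Finset.mem_erase] at hw
      rcases Finset.mem_insert.1 (hF G hG.1 hw.2) with rfl | h
      · exact absurd rfl hw.1
      · exact h
    have hBcard : 𝓑.card = (𝓕.filter fun F => v ∈ F).card := by
      rw [hB]
      apply Finset.card_image_of_injOn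
      intro F hF' G hG' h
      simp only [Finset.coe_filter, Set.mem_ofPred_eq] at hF' hG'
      have : insert v (F.erase v) = insert v (G.erase v) := by
        simpa using congrArg (insert v) h
      rwa [Finset.insert_erase hF'.2, Finset.insert_erase hG'.2] at this
    have hcard : 𝓕.card = 𝓐.card + 𝓑.card := by
      rw [hBcard, hA, add_comm]
      exact (Finset.card_filter_add_card_filter_not (s := 𝓕) (fun F => v ∈ F)).symm
    -- traces
    set t : Finset (Finset β) → ι → ℕ := fun 𝓖 i => (𝓖.image fun F => F ∩ V i).card with ht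
    have hAle : ∀ i, t 𝓐 i ≤ t 𝓕 i := by
      intro i
      apply Finset.card_le_card
      apply Finset.image_subset_image
      exact Finset.filter_subset _ _
    have hBle : ∀ i ∉ I, t 𝓑 i ≤ t 𝓕 i := by
      intro i hi
      have hvi : v ∉ V i := by simpa [hI] using hi
      apply Finset.card_le_card
      intro T hT
      rw [Finset.mem_image] at hT ⊢
      obtain ⟨F, hFB, rfl⟩ := hT
      rw [hB, Finset.mem_image] at hFB
      obtain ⟨G, hG, rfl⟩ := hFB
      rw [Finset.mem_filter] at hG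
      refine ⟨G, hG.1, ?_⟩
      ext w
      simp only [Finset.mem_inter, Finset.mem_erase]
      constructor
      · rintro ⟨h1, h2⟩
        exact ⟨⟨fun h => hvi (h ▸ h2), h1⟩, h2⟩
      · rintro ⟨⟨_, h1⟩, h2⟩
        exact ⟨h1, h2⟩
    have hsum : ∀ i ∈ I, t 𝓐 i + t 𝓑 i ≤ t 𝓕 i := by
      intro i hi
      have hvi : v ∈ V i := by simpa [hI] using hi
      have h1 : (𝓕.image fun F => F ∩ V i) =
          (𝓐.image fun F => F ∩ V i) ∪
            ((𝓑.image fun F => F ∩ V i).image fun T => insert v T) := by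
        ext T
        simp only [Finset.mem_union, Finset.mem_image, hA, hB, Finset.mem_filter]
        constructor
        · rintro ⟨F, hF', rfl⟩
          by_cases hvF : v ∈ F
          · right
            refine ⟨(F.erase v) ∩ V i, ⟨F.erase v, ⟨F, ⟨hF', hvF⟩, rfl⟩, rfl⟩, ?_⟩
            ext w
            simp only [Finset.mem_insert, Finset.mem_inter, Finset.mem_erase]
            constructor
            · rintro (rfl | ⟨⟨_, h⟩, h'⟩)
              · exact ⟨hvF, hvi⟩
              · exact ⟨h, h'⟩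
            · rintro ⟨h, h'⟩
              by_cases hw : w = v
              · exact Or.inl hw
              · exact Or.inr ⟨⟨hw, h⟩, h'⟩
          · left
            exact ⟨F, ⟨hF', hvF⟩, rfl⟩
        · rintro (⟨F, ⟨hF', _⟩, rfl⟩ | ⟨T', ⟨F', ⟨F, ⟨hF', hvF⟩, rfl⟩, rfl⟩, rfl⟩)
          · exact ⟨F, hF', rfl⟩
          · refine ⟨F, hF', ?_⟩
            ext w
            simp only [Finset.mem_insert, Finset.mem_inter, Finset.mem_erase]
            constructor
            · rintro ⟨h, h'⟩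
              by_cases hw : w = v
              · exact Or.inl hw
              · exact Or.inr ⟨⟨hw, h⟩, h'⟩
            · rintro (rfl | ⟨⟨_, h⟩, h'⟩)
              · exact ⟨hvF, hvi⟩
              · exact ⟨h, h'⟩
      have hdisj : Disjoint (𝓐.image fun F => F ∩ V i)
          ((𝓑.image fun F => F ∩ V i).image fun T => insert v T) := by
        rw [Finset.disjoint_left]
        intro T hT hT'
        rw [Finset.mem_image] at hT hT'
        obtain ⟨F, hFA, rfl⟩ := hT
        obtain ⟨T', _, h⟩ := hT'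
        rw [hA, Finset.mem_filter] at hFA
        have : v ∈ F ∩ V i := h ▸ Finset.mem_insert_self v T'
        exact hFA.2 (Finset.mem_inter.1 this).1
      have hinj : ((𝓑.image fun F => F ∩ V i).image fun T => insert v T).card
          = (𝓑.image fun F => F ∩ V i).card := by
        apply Finset.card_image_of_injOn
        have hno : ∀ T ∈ (𝓑.image fun F => F ∩ V i), v ∉ T := by
          intro T hT
          rw [Finset.mem_image] at hT
          obtain ⟨F, hFB, rfl⟩ := hT
          intro h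
          exact hv (hBsub F hFB (Finset.mem_inter.1 h).1)
        intro T hT T' hT' h
        have h2 : (insert v T).erase v = (insert v T').erase v := by
          simpa using congrArg (fun X => Finset.erase X v) h
        rwa [Finset.erase_insert (hno T hT), Finset.erase_insert (hno T' hT')] at h2
      show (𝓐.image fun F => F ∩ V i).card + (𝓑.image fun F => F ∩ V i).card
        ≤ (𝓕.image fun F => F ∩ V i).card
      rw [h1, Finset.card_union_of_disjoint hdisj, hinj]
    show 𝓕.card ^ k ≤ ∏ i, t 𝓕 i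
    have hpos : ∀ (𝓖 : Finset (Finset β)), 𝓖.Nonempty → ∀ i, 0 < t 𝓖 i := fun 𝓖 h i =>
      Finset.card_pos.2 (h.image _)
    have hsplit : ∀ (f : ι → ℕ), ∏ i, f i = (∏ i ∈ Iᶜ, f i) * ∏ i ∈ I, f i := fun f => by
      rw [Finset.prod_compl_mul_prod]
    rcases 𝓐.eq_empty_or_nonempty with hA0 | hAne
    · -- all contain v
      have hBne : 𝓑.Nonempty := by
        rw [← Finset.card_pos]
        have := Finset.card_pos.2 hne
        rw [hcard, hA0, Finset.card_empty, zero_add] at this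
        exact this
      have h := ih 𝓑 hBsub hk' hBne
      have hc : 𝓕.card = 𝓑.card := by rw [hcard, hA0, Finset.card_empty, zero_add]
      rw [hc]
      refine h.trans ?_
      apply Finset.prod_le_prod' 
      intro i _
      by_cases hi : i ∈ I
      · exact le_trans (Nat.le_add_left _ _) (hsum i hi)
      · exact hBle i hi
    rcases 𝓑.eq_empty_or_nonempty with hB0 | hBne
    · have h := ih 𝓐 hAsub hk' hAne
      have hc : 𝓕.card = 𝓐.card := by rw [hcard, hB0, Finset.card_empty, add_zero]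
      rw [hc]
      refine h.trans ?_
      apply Finset.prod_le_prod'
      intro i _
      exact hAle i
    · have hx := ih 𝓐 hAsub hk' hAne
      have hy := ih 𝓑 hBsub hk' hBne
      change 𝓐.card ^ k ≤ ∏ i, t 𝓐 i at hx
      change 𝓑.card ^ k ≤ ∏ i, t 𝓑 i at hy
      rw [hsplit] at hx hy
      have hx' : 𝓐.card ^ I.card ≤ (∏ i ∈ Iᶜ, t 𝓕 i) * ∏ i ∈ I, t 𝓐 i := by
        rw [hkv]
        refine hx.trans (Nat.mul_le_mul_right _ ?_)
        exact Finset.prod_le_prod' fun i _ => hAle i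
      have hy' : 𝓑.card ^ I.card ≤ (∏ i ∈ Iᶜ, t 𝓕 i) * ∏ i ∈ I, t 𝓑 i := by
        rw [hkv]
        refine hy.trans (Nat.mul_le_mul_right _ ?_)
        exact Finset.prod_le_prod' fun i hi => hBle i (Finset.mem_compl.1 hi)
      have hfin := combine I (t 𝓐) (t 𝓑) (∏ i ∈ Iᶜ, t 𝓕 i) 𝓐.card 𝓑.card
        (fun i _ => hpos _ hAne i) (fun i _ => hpos _ hBne i) hx' hy'
        (Finset.prod_pos fun i _ => hpos _ hne i)
      rw [hcard, ← hkv]
      refine hfin.trans ?_
      rw [hsplit]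
      refine Nat.mul_le_mul_left _ ?_
      exact Finset.prod_le_prod' fun i hi => hsum i hi

end Pool.Agent.LibRank66
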