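import Mathlib

/-!
# Matroids on `n` elements up to isomorphism, and families of bases
-/

set_option autoImplicit false

namespace Pool.Agent.LibRank66

/-- Matroids with ground set all of `Fin n`. -/
def Mat (n : ℕ) : Type := {M : Matroid (Fin n) // M.E = Set.univ}

/-- `M` and `N` are isomorphic: some permutation of the ground set carries the bases of `M` to the
bases of `N`. -/
def IsIso {n : ℕ} (M N : Mat n) : Prop :=
  ∃ σ : Equiv.Perm (Fin n), ∀ B : Set (Fin n), M.1.IsBase B ↔ N.1.IsBase (σ '' B)

/-- Isomorphism as an equivalence relation. -/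
def isoSetoid (n : ℕ) : Setoid (Mat n) where
  r := IsIso
  iseqv :=
    { refl := fun M => ⟨1, fun B => by simp⟩
      symm := by
        rintro M N ⟨σ, h⟩
        refine ⟨σ⁻¹, fun B => ?_⟩
        have : σ '' ((σ⁻¹ : Equiv.Perm (Fin n)) '' B) = B := by
          rw [← Set.image_comp]
          simp
        rw [h, this]
      trans := by
        rintro M N P ⟨σ, h⟩ ⟨τ, h'⟩
        refine ⟨τ * σ, fun B => ?_⟩
        rw [h, h', ← Set.image_comp]
        rfl }

/-- Isomorphism classes of matroids on `n` elements. -/
def IsoClass (n : ℕ) : Type := Quotient (isoSetoid n)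

/-- The rank of a matroid on `n` elements. -/
noncomputable def rk {n : ℕ} (M : Mat n) : ℕ := M.1.eRank.toNat

/-- The number of isomorphism classes of matroids on `n` elements whose rank has property `P`. -/
noncomputable def numClasses (n : ℕ) (P : ℕ → Prop) : ℕ :=
  Set.ncard {c : IsoClass n | ∃ M : Mat n, Quotient.mk (isoSetoid n) M = c ∧ P (rk M)}

/-- The basis exchange property for a finite family of finite sets. -/
def Exch {α : Type*} [DecidableEq α] (𝓑 : Finset (Finset α)) : Prop :=
  ∀ A ∈ 𝓑, ∀ B ∈ 𝓑, ∀ a ∈ A \ B, ∃ b ∈ B \ A, insert b (A.erase a) ∈ 𝓑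

open Classical in
/-- All families of `r`-subsets of `S` with the exchange property (the empty family and the
families of bases of the matroids of rank `r` with ground set `S`). -/
noncomputable def Fm {α : Type*} [DecidableEq α] (S : Finset α) (r : ℕ) :
    Finset (Finset (Finset α)) :=
  (S.powersetCard r).powerset.filter fun 𝓑 => Exch 𝓑

/-- `cnt n r` is one more than the number of matroids of rank `r` with ground set
`{0, ..., n - 1}`. -/
noncomputable def cnt (n r : ℕ) : ℕ := (Fm (Finset.range n) r).card

lemma mem_Fm {α : Type*} [DecidableEq α] {S : Finset α} {r : ℕ} {𝓑 : Finset (Finset α)} :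
    𝓑 ∈ Fm S r ↔ 𝓑 ⊆ S.powersetCard r ∧ Exch 𝓑 := by
  simp [Fm]

lemma empty_mem_Fm {α : Type*} [DecidableEq α] (S : Finset α) (r : ℕ) : ∅ ∈ Fm S r := by
  rw [mem_Fm]
  exact ⟨Finset.empty_subset _, fun A hA => absurd hA (Finset.notMem_empty _)⟩

end Pool.Agent.LibRank66
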