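import Pool.Agent.LibRank66.Defs

/-!
# The lower bound of Knuth (by the colouring of Graham and Sloane)
-/

set_option autoImplicit false

namespace Pool.Agent.LibRank66

/-- The `r`-subsets of `{0, ..., n - 1}` whose sum is `c` modulo `n`. -/
private def cls (n r c : ℕ) : Finset (Finset ℕ) :=
  ((Finset.range n).powersetCard r).filter fun A => (∑ i ∈ A, i) % n = c

private lemma mem_cls {n r c : ℕ} {A : Finset ℕ} :
    A ∈ cls n r c ↔ A ∈ (Finset.range n).powersetCard r ∧ (∑ i ∈ A, i) % n = c := by
  simp [cls]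

/-- Two members of a colour class do not arise from one another by replacing one element. -/
private lemma cls_sep {n r c : ℕ} {X : Finset ℕ} {a b : ℕ} (ha : a ∉ X) (hb : b ∉ X) (han : a < n)
    (hbn : b < n) (h1 : insert a X ∈ cls n r c) (h2 : insert b X ∈ cls n r c) : a = b := by
  rw [mem_cls] at h1 h2
  have h3 : (∑ i ∈ insert a X, i) % n = (∑ i ∈ insert b X, i) % n := by rw [h1.2, h2.2]
  rw [Finset.sum_insert ha, Finset.sum_insert hb] at h3
  have h4 : a ≡ b [MOD n] := Nat.ModEq.add_right_cancel' _ h3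
  exact Nat.ModEq.eq_of_lt_of_lt h4 han hbn

private lemma exch_sdiff {n r c : ℕ} {T : Finset (Finset ℕ)} (hT : T ⊆ cls n r c) :
    Exch ((Finset.range n).powersetCard r \ T) := by
  intro A hA B hB a ha
  rw [Finset.mem_sdiff] at hA hB ha
  obtain ⟨hA1, hA2⟩ := hA
  obtain ⟨hB1, hB2⟩ := hB
  rw [Finset.mem_powersetCard] at hA1 hB1
  have hcard : (B \ A).card = (A \ B).card := by
    have h1 := Finset.card_sdiff_add_card_inter A B
    have h2 := Finset.card_sdiff_add_card_inter B A
    rw [Finset.inter_comm B A] at h2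
    omega
  have hpos : 0 < (A \ B).card := Finset.card_pos.2 ⟨a, Finset.mem_sdiff.2 ha⟩
  have hset : ∀ b ∈ B \ A, insert b (A.erase a) ∈ (Finset.range n).powersetCard r := by
    intro b hb
    rw [Finset.mem_sdiff] at hb
    rw [Finset.mem_powersetCard]
    constructor
    · intro x hx
      rw [Finset.mem_insert, Finset.mem_erase] at hx
      rcases hx with rfl | ⟨_, hx⟩
      · exact hB1.1 hb.1
      · exact hA1.1 hx
    · rw [Finset.card_insert_of_notMem (fun h => hb.2 (Finset.mem_of_mem_erase h)),
        Finset.card_erase_of_mem ha.1, hA1.2]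
      have : 0 < A.card := Finset.card_pos.2 ⟨a, ha.1⟩
      omega
  by_cases hk : (A \ B).card = 1
  · rw [hk] at hcard
    obtain ⟨b, hb⟩ := Finset.card_eq_one.1 hcard
    obtain ⟨a', ha'⟩ := Finset.card_eq_one.1 hk
    have haa : a = a' := by
      have : a ∈ A \ B := Finset.mem_sdiff.2 ha
      rw [ha', Finset.mem_singleton] at this
      exact this
    subst haa
    have hbB : b ∈ B \ A := by rw [hb]; exact Finset.mem_singleton_self b
    refine ⟨b, hbB, ?_⟩
    have hEq : insert b (A.erase a) = B := by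
      ext x
      rw [Finset.mem_insert, Finset.mem_erase]
      constructor
      · rintro (rfl | ⟨hx1, hx2⟩)
        · exact (Finset.mem_sdiff.1 hbB).1
        · by_contra hx3
          have : x ∈ A \ B := Finset.mem_sdiff.2 ⟨hx2, hx3⟩
          rw [ha', Finset.mem_singleton] at this
          exact hx1 this
      · intro hx
        by_cases hxA : x ∈ A
        · right
          refine ⟨?_, hxA⟩
          rintro rfl
          exact ha.2 hx
        · left
          have : x ∈ B \ A := Finset.mem_sdiff.2 ⟨hx, hxA⟩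
          rw [hb, Finset.mem_singleton] at this
          exact this
    rw [hEq, Finset.mem_sdiff, Finset.mem_powersetCard]
    exact ⟨hB1, hB2⟩
  · have h2 : 1 < (B \ A).card := by omega
    obtain ⟨b, hb, b', hb', hne⟩ := Finset.one_lt_card.1 h2
    by_cases h3 : insert b (A.erase a) ∈ T
    · refine ⟨b', hb', Finset.mem_sdiff.2 ⟨hset b' hb', fun h4 => hne ?_⟩⟩
      have hb1 := Finset.mem_sdiff.1 hb
      have hb2 := Finset.mem_sdiff.1 hb'
      exact cls_sep (fun h => hb1.2 (Finset.mem_of_mem_erase h))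
        (fun h => hb2.2 (Finset.mem_of_mem_erase h)) (Finset.mem_range.1 (hB1.1 hb1.1))
        (Finset.mem_range.1 (hB1.1 hb2.1)) (hT h3) (hT h4)
    · exact ⟨b, hb, Finset.mem_sdiff.2 ⟨hset b hb, h3⟩⟩

private lemma two_pow_cls_le (n r c : ℕ) : 2 ^ (cls n r c).card ≤ cnt n r := by
  rw [← Finset.card_powerset]
  refine Finset.card_le_card_of_injOn (fun T => (Finset.range n).powersetCard r \ T) ?_ ?_
  · intro T hT
    rw [Finset.mem_coe, Finset.mem_powerset] at hT
    rw [Finset.mem_coe, mem_Fm]
    exact ⟨Finset.sdiff_subset, exch_sdiff hT⟩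
  · intro T hT T' hT' h
    rw [Finset.mem_coe, Finset.mem_powerset] at hT hT'
    have hsub : cls n r c ⊆ (Finset.range n).powersetCard r := Finset.filter_subset _ _
    simp only at h
    rw [← Finset.sdiff_sdiff_eq_self (hT.trans hsub), h,
      Finset.sdiff_sdiff_eq_self (hT'.trans hsub)]

theorem cnt_lower (n r : ℕ) (hn : 1 ≤ n) (h : r ≤ n) : 2 ^ (n.choose r) ≤ cnt n r ^ n := by
  have h1 : n.choose r = ∑ c ∈ Finset.range n, (cls n r c).card := by
    have h2 : ((Finset.range n).powersetCard r).card = n.choose r := by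
      rw [Finset.card_powersetCard, Finset.card_range]
    rw [← h2]
    exact Finset.card_eq_sum_card_fiberwise
      (f := fun A : Finset ℕ => (∑ i ∈ A, i) % n) (t := Finset.range n)
      (fun A _ => Finset.mem_coe.2 (Finset.mem_range.2 (Nat.mod_lt _ hn)))
  rw [h1, ← Finset.prod_pow_eq_pow_sum]
  calc ∏ c ∈ Finset.range n, 2 ^ (cls n r c).card ≤ ∏ c ∈ Finset.range n, cnt n r :=
        Finset.prod_le_prod' fun c _ => two_pow_cls_le n r c
    _ = cnt n r ^ n := by rw [Finset.prod_const, Finset.card_range]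

end Pool.Agent.LibRank66
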