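import Pool.Agent.LibRank66.Mono
import Pool.Agent.LibRank66.Knuth

/-!
# The central densities
-/

set_option autoImplicit false

namespace Pool.Agent.LibRank66

/-- the density at `(n, r)` -/
noncomputable def del (n r : ℕ) : ℝ := Real.log (cnt n r) / n.choose r

/-- the central density -/
noncomputable def D (n : ℕ) : ℝ := max (del n (n / 2)) (del n (n - n / 2))

private theorem cnt_pos (n r : ℕ) : 0 < cnt n r :=
  Finset.card_pos.2 ⟨∅, empty_mem_Fm _ _⟩

private theorem log_of_pow_le {a b : ℕ} {k l : ℕ} (ha : 0 < a) (h : a ^ k ≤ b ^ l) :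
    (k : ℝ) * Real.log a ≤ l * Real.log b := by
  rw [← Real.log_pow, ← Real.log_pow]
  apply Real.log_le_log
  · have : (0 : ℝ) < a := by exact_mod_cast ha
    positivity
  · exact_mod_cast h

private theorem del_del (n r : ℕ) (h : r ≤ n) : del (n + 1) r ≤ del n r := by
  have h1 := log_of_pow_le (cnt_pos _ _) (cnt_del n r h)
  have h2 : n.choose r * (n + 1) = (n + 1).choose r * (n + 1 - r) := Nat.choose_mul_succ_eq n r
  have h3 : ((n.choose r : ℕ) : ℝ) * ((n + 1 : ℕ) : ℝ) =
      ((n + 1).choose r : ℕ) * ((n + 1 - r : ℕ) : ℝ) := by exact_mod_cast h2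
  have p1 : (0 : ℝ) < (n.choose r : ℕ) := by exact_mod_cast Nat.choose_pos h
  have p2 : (0 : ℝ) < ((n + 1).choose r : ℕ) := by
    exact_mod_cast Nat.choose_pos (h.trans (Nat.le_succ n))
  have p3 : (0 : ℝ) < ((n + 1 : ℕ) : ℝ) := by positivity
  have p4 : (0 : ℝ) < ((n + 1 - r : ℕ) : ℝ) := by
    have : 0 < n + 1 - r := by omega
    exact_mod_cast this
  unfold del
  rw [div_le_div_iff₀ p2 p1]
  have h5 : (Real.log (cnt (n + 1) r) * (n.choose r : ℕ)) * ((n + 1 : ℕ) : ℝ) ≤
      (Real.log (cnt n r) * ((n + 1).choose r : ℕ)) * ((n + 1 : ℕ) : ℝ) := by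
    calc (Real.log (cnt (n + 1) r) * (n.choose r : ℕ)) * ((n + 1 : ℕ) : ℝ)
        = (((n + 1 - r : ℕ) : ℝ) * Real.log (cnt (n + 1) r)) * ((n + 1).choose r : ℕ) := by
          linear_combination Real.log (cnt (n + 1) r) * h3
      _ ≤ (((n + 1 : ℕ) : ℝ) * Real.log (cnt n r)) * ((n + 1).choose r : ℕ) :=
          mul_le_mul_of_nonneg_right h1 p2.le
      _ = _ := by ring
  exact le_of_mul_le_mul_right h5 p3

private theorem del_con (n r : ℕ) (h : r ≤ n) : del (n + 1) (r + 1) ≤ del n r := by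
  have h1 := log_of_pow_le (cnt_pos _ _) (cnt_con n r h)
  have h2 : (n + 1) * n.choose r = (n + 1).choose (r + 1) * (r + 1) :=
    Nat.add_one_mul_choose_eq n r
  have h3 : ((n + 1 : ℕ) : ℝ) * ((n.choose r : ℕ) : ℝ) =
      ((n + 1).choose (r + 1) : ℕ) * ((r + 1 : ℕ) : ℝ) := by exact_mod_cast h2
  have p1 : (0 : ℝ) < (n.choose r : ℕ) := by exact_mod_cast Nat.choose_pos h
  have p2 : (0 : ℝ) < ((n + 1).choose (r + 1) : ℕ) := by
    exact_mod_cast Nat.choose_pos (Nat.succ_le_succ h)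
  have p3 : (0 : ℝ) < ((n + 1 : ℕ) : ℝ) := by positivity
  unfold del
  rw [div_le_div_iff₀ p2 p1]
  have h5 : (Real.log (cnt (n + 1) (r + 1)) * (n.choose r : ℕ)) * ((n + 1 : ℕ) : ℝ) ≤
      (Real.log (cnt n r) * ((n + 1).choose (r + 1) : ℕ)) * ((n + 1 : ℕ) : ℝ) := by
    calc (Real.log (cnt (n + 1) (r + 1)) * (n.choose r : ℕ)) * ((n + 1 : ℕ) : ℝ)
        = (((r + 1 : ℕ) : ℝ) * Real.log (cnt (n + 1) (r + 1))) *
            ((n + 1).choose (r + 1) : ℕ) := by
          linear_combination Real.log (cnt (n + 1) (r + 1)) * h3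
      _ ≤ (((n + 1 : ℕ) : ℝ) * Real.log (cnt n r)) * ((n + 1).choose (r + 1) : ℕ) :=
          mul_le_mul_of_nonneg_right h1 p2.le
      _ = _ := by ring
  exact le_of_mul_le_mul_right h5 p3

theorem D_anti (n : ℕ) (hn : 1 ≤ n) : D (n + 1) ≤ D n := by
  unfold D
  rcases Nat.even_or_odd' n with ⟨m, rfl | rfl⟩
  · have e1 : (2 * m + 1) / 2 = m := by omega
    have e2 : 2 * m + 1 - m = m + 1 := by omega
    have e3 : 2 * m / 2 = m := by omega
    rw [e1, e2, e3]
    exact max_le ((del_del _ _ (by omega)).trans (le_max_left _ _))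
      ((del_con _ _ (by omega)).trans (le_max_left _ _))
  · have e1 : (2 * m + 1 + 1) / 2 = m + 1 := by omega
    have e2 : 2 * m + 1 + 1 - (m + 1) = m + 1 := by omega
    have e3 : (2 * m + 1) / 2 = m := by omega
    rw [e1, e2, e3]
    exact max_le ((del_con _ _ (by omega)).trans (le_max_left _ _))
      ((del_con _ _ (by omega)).trans (le_max_left _ _))

theorem D_lower (n : ℕ) (hn : 1 ≤ n) : Real.log 2 / n ≤ D n := by
  have h : n / 2 ≤ n := Nat.div_le_self n 2
  have h1 := log_of_pow_le (by norm_num) (cnt_lower n (n / 2) hn h)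
  have p1 : (0 : ℝ) < (n.choose (n / 2) : ℕ) := by exact_mod_cast Nat.choose_pos h
  have p2 : (0 : ℝ) < (n : ℝ) := by exact_mod_cast hn
  refine le_trans ?_ (le_max_left _ _)
  unfold del
  rw [div_le_div_iff₀ p2 p1]
  have h2 : (((2 : ℕ) : ℝ)) = 2 := by norm_num
  rw [h2] at h1
  linarith

private theorem del_del_iter (r m : ℕ) (h : r ≤ m) (k : ℕ) : del (m + k) r ≤ del m r := by
  induction k with
  | zero => exact le_rfl
  | succ k ih => exact (del_del (m + k) r (by omega)).trans ih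

private theorem del_con_iter (r m : ℕ) (h : r ≤ m) (k : ℕ) : del (m + k) (r + k) ≤ del m r := by
  induction k with
  | zero => exact le_rfl
  | succ k ih => exact (del_con (m + k) (r + k) (by omega)).trans ih

theorem log_cnt_le (n r : ℕ) (hr : r ≤ n) (h : 2 * min r (n - r) + 1 ≤ n) :
    Real.log (cnt n r) ≤ n.choose r * D (2 * min r (n - r) + 1) := by
  have p1 : (0 : ℝ) < (n.choose r : ℕ) := by exact_mod_cast Nat.choose_pos hr
  have key : del n r ≤ D (2 * min r (n - r) + 1) := by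
    rcases le_total r (n - r) with h1 | h1
    · rw [min_eq_left h1] at h ⊢
      obtain ⟨k, rfl⟩ := Nat.exists_eq_add_of_le h
      have e1 : (2 * r + 1) / 2 = r := by omega
      unfold D
      rw [e1]
      exact (del_del_iter r (2 * r + 1) (by omega) k).trans (le_max_left _ _)
    · rw [min_eq_right h1] at h ⊢
      obtain ⟨s, hs⟩ : ∃ s, s = n - r := ⟨_, rfl⟩
      rw [← hs] at h ⊢
      obtain ⟨k, hk⟩ := Nat.exists_eq_add_of_le h
      have hr2 : r = s + 1 + k := by omega
      have e1 : 2 * s + 1 - (2 * s + 1) / 2 = s + 1 := by omega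
      unfold D
      rw [e1, hk, hr2]
      exact (del_con_iter (s + 1) (2 * s + 1) (by omega) k).trans (le_max_right _ _)
  unfold del at key
  rw [div_le_iff₀ p1] at key
  linarith

end Pool.Agent.LibRank66
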