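import Mathlib

/-!
# The gap between the central and the other binomial coefficients
-/

set_option autoImplicit false

namespace Pool.Agent.LibRank66

/-- One step: the ratio of consecutive binomial coefficients. -/
private theorem gap_step {n k : ℕ} (hk : 2 * k + 1 ≤ n) :
    Real.exp (2 * ((n : ℝ) - 2 * k - 1) / (n + 1)) ≤ ((n : ℝ) - k) / (k + 1) := by
  have hk' : (2 : ℝ) * k + 1 ≤ n := by exact_mod_cast hk
  have hk0 : (0 : ℝ) ≤ k := Nat.cast_nonneg k
  have hpos : (0 : ℝ) < ((n : ℝ) - k) / (k + 1) := div_pos (by linarith) (by linarith)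
  rw [← Real.le_log_iff_exp_le hpos]
  have hx : (0 : ℝ) ≤ ((n : ℝ) - 2 * k - 1) / (k + 1) := div_nonneg (by linarith) (by linarith)
  have h1 := Real.le_log_one_add_of_nonneg hx
  have h2 : 1 + ((n : ℝ) - 2 * k - 1) / (k + 1) = ((n : ℝ) - k) / (k + 1) := by
    field_simp
    ring
  have h3 : 2 * (((n : ℝ) - 2 * k - 1) / (k + 1)) / (((n : ℝ) - 2 * k - 1) / (k + 1) + 2) =
      2 * ((n : ℝ) - 2 * k - 1) / (n + 1) := by
    have h4 : (k : ℝ) + 1 ≠ 0 := by linarith
    have h5 : (n : ℝ) + 1 ≠ 0 := by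
      have : (0 : ℝ) ≤ n := Nat.cast_nonneg n
      linarith
    have h6 : ((n : ℝ) - 2 * k - 1) / (k + 1) + 2 = (n + 1) / (k + 1) := by
      field_simp
      ring
    rw [h6]
    field_simp
  rw [h2, h3] at h1
  exact h1

private theorem gap_choose {n m : ℕ} (d : ℕ) (hd : 2 * (m + d) ≤ n + 1) :
    (n.choose m : ℝ) * Real.exp (2 * (d : ℝ) * ((n : ℝ) - 2 * m - d) / (n + 1)) ≤
      n.choose (m + d) := by
  induction d with
  | zero => simp
  | succ d ih =>
    have ih' := ih (by omega)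
    have hn0 : (0 : ℝ) ≤ n := Nat.cast_nonneg n
    have hstep := gap_step (n := n) (k := m + d) (by omega)
    have hrec : (n.choose (m + d + 1) : ℝ) * ((m + d : ℕ) + 1 : ℝ) =
        n.choose (m + d) * ((n : ℝ) - (m + d : ℕ)) := by
      have h1 := Nat.choose_succ_right_eq n (m + d)
      have h2 : m + d ≤ n := by omega
      have h3 : ((n - (m + d) : ℕ) : ℝ) = (n : ℝ) - (m + d : ℕ) := Nat.cast_sub h2
      have h4 : ((n.choose (m + d + 1) * (m + d + 1) : ℕ) : ℝ) =
          ((n.choose (m + d) * (n - (m + d)) : ℕ) : ℝ) := by exact_mod_cast h1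
      rw [Nat.cast_mul, Nat.cast_mul, h3] at h4
      rw [← h4]
      push_cast
      ring
    have hpos : (0 : ℝ) < ((m + d : ℕ) : ℝ) + 1 := by positivity
    have heq : (n.choose (m + (d + 1)) : ℝ) =
        n.choose (m + d) * (((n : ℝ) - (m + d : ℕ)) / ((m + d : ℕ) + 1)) := by
      rw [← add_assoc, mul_div_assoc', eq_div_iff hpos.ne']
      exact hrec
    rw [heq]
    have hexp : Real.exp (2 * ((d + 1 : ℕ) : ℝ) * ((n : ℝ) - 2 * m - (d + 1 : ℕ)) / (n + 1)) =
        Real.exp (2 * (d : ℝ) * ((n : ℝ) - 2 * m - d) / (n + 1)) *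
          Real.exp (2 * ((n : ℝ) - 2 * ((m + d : ℕ) : ℝ) - 1) / (n + 1)) := by
      rw [← Real.exp_add]
      congr 1
      rw [← add_div]
      congr 1
      push_cast
      ring
    rw [hexp, ← mul_assoc]
    exact mul_le_mul ih' hstep (Real.exp_pos _).le (Nat.cast_nonneg _)

theorem gap (X : ℕ) (hX : 1 ≤ X) (β : ℝ) (hβ1 : 1 < β)
    (hβ : β < 2 * (X : ℝ) ^ 2 / (2 * X - 1)) :
    ∃ γ : ℝ, 0 < γ ∧ ∃ n₀ : ℕ, ∀ n : ℕ, n₀ ≤ n → ∀ m : ℕ, 2 * m + 2 * X ≤ n →
      (n.choose m : ℝ) * ((n : ℝ) / (2 * m + 1)) ^ β ≤ (1 - γ / n) * n.choose (n / 2) := by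
  have hX' : (1 : ℝ) ≤ X := by exact_mod_cast hX
  obtain ⟨δ, hδ⟩ : ∃ δ : ℝ, δ = 2 * (X : ℝ) ^ 2 / (2 * X - 1) - β := ⟨_, rfl⟩
  have hδ0 : 0 < δ := by rw [hδ]; linarith
  obtain ⟨κ, hκ⟩ : ∃ κ : ℝ, κ = δ / (2 * β + δ) := ⟨_, rfl⟩
  have hκ0 : 0 < κ := by rw [hκ]; positivity
  have hκ1 : κ < 1 := by
    rw [hκ, div_lt_one (by positivity)]
    linarith
  -- large `n`
  have hlog : ∀ᶠ n : ℕ in Filter.atTop, Real.log n ≤ κ ^ 2 / (8 * β) * n := by
    have h1 : ∀ᶠ x : ℝ in Filter.atTop, ‖Real.log x‖ ≤ κ ^ 2 / (8 * β) * ‖id x‖ :=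
      Real.isLittleO_log_id_atTop.bound (by positivity)
    have h2 := tendsto_natCast_atTop_atTop (R := ℝ) |>.eventually h1
    filter_upwards [h2] with n hn
    have h3 : ‖id (n : ℝ)‖ = n := by simp
    rw [h3] at hn
    exact (Real.le_norm_self _).trans hn
  obtain ⟨n₁, hn₁⟩ := Filter.eventually_atTop.mp hlog
  obtain ⟨n₂, hn₂⟩ := exists_nat_ge (4 * (β + δ) / δ)
  obtain ⟨n₃, hn₃⟩ := exists_nat_ge (2 * δ / κ ^ 2)
  obtain ⟨n₄, hn₄⟩ := exists_nat_ge δ
  refine ⟨δ / 8, by positivity, n₁ + n₂ + n₃ + n₄ + 1, ?_⟩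
  intro n hn m hm
  have hn1 : (1 : ℝ) ≤ n := by
    have : 1 ≤ n := by omega
    exact_mod_cast this
  have hn0 : (0 : ℝ) < n := by linarith
  have hL := hn₁ n (by omega)
  have hB : 4 * (β + δ) / δ ≤ n := hn₂.trans (by exact_mod_cast (show n₂ ≤ n by omega))
  have hC : 2 * δ / κ ^ 2 ≤ n := hn₃.trans (by exact_mod_cast (show n₃ ≤ n by omega))
  have hD : δ ≤ n := hn₄.trans (by exact_mod_cast (show n₄ ≤ n by omega))
  have hm' : (2 : ℝ) * m + 2 * X ≤ n := by exact_mod_cast hm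
  have hm0 : (0 : ℝ) ≤ m := Nat.cast_nonneg m
  -- the exponent
  obtain ⟨s, hs⟩ : ∃ s : ℝ, s = (n : ℝ) - 2 * m - 1 := ⟨_, rfl⟩
  have hs1 : 2 * (X : ℝ) - 1 ≤ s := by rw [hs]; linarith
  have hsn : s ≤ n - 1 := by rw [hs]; linarith
  obtain ⟨d, hd⟩ : ∃ d, n / 2 = m + d := ⟨n / 2 - m, by omega⟩
  have hmain := gap_choose (n := n) (m := m) d (by omega)
  rw [← hd] at hmain
  obtain ⟨Q, hQ⟩ : ∃ Q : ℝ, Q = 2 * (d : ℝ) * ((n : ℝ) - 2 * m - d) := ⟨_, rfl⟩
  rw [← hQ] at hmain
  have hb0 : β + δ = 2 * (X : ℝ) ^ 2 / (2 * X - 1) := by rw [hδ]; ring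
  have hX1 : (0 : ℝ) < 2 * X - 1 := by linarith
  have hQ1 : (β + δ) * s ≤ Q ∧ s ^ 2 / 2 ≤ Q := by
    rw [hb0]
    rcases Nat.even_or_odd n with he | ho
    · -- `n` even
      obtain ⟨c, hc⟩ := he
      have h1 : n = 2 * (m + d) := by omega
      have h2 : (n : ℝ) = 2 * (m + d) := by exact_mod_cast h1
      have h3 : Q = (s + 1) ^ 2 / 2 := by
        rw [hQ, hs, h2]; ring
      constructor
      · rw [h3, div_mul_eq_mul_div, div_le_iff₀ hX1]
        have h4 : 0 ≤ (s - (2 * X - 1)) * ((2 * X - 1) * s - 1) := by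
          apply mul_nonneg (by linarith)
          nlinarith
        nlinarith
      · rw [h3]
        nlinarith
    · obtain ⟨c, hc⟩ := ho
      have h1 : n = 2 * (m + d) + 1 := by omega
      have h2 : (n : ℝ) = 2 * (m + d) + 1 := by exact_mod_cast h1
      have h3 : Q = s * (s + 2) / 2 := by
        rw [hQ, hs, h2]; ring
      have h5 : 2 * (X : ℝ) ≤ s := by
        have h6 : X ≤ d := by omega
        have h7 : (X : ℝ) ≤ d := by exact_mod_cast h6
        rw [hs, h2]; linarith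
      constructor
      · rw [h3, div_mul_eq_mul_div, div_le_iff₀ hX1]
        have h4 : 0 ≤ s * ((s + 2) * (2 * X - 1) - 4 * X ^ 2) := by
          apply mul_nonneg (by linarith)
          nlinarith
        nlinarith
      · rw [h3]
        nlinarith
  obtain ⟨hQa, hQb⟩ := hQ1
  have hs0 : 1 ≤ s := by linarith
  -- reduction to the exponents
  have hns : (2 : ℝ) * m + 1 = n - s := by rw [hs]; ring
  have hns1 : 1 ≤ (n : ℝ) - s := by linarith
  have key : β * Real.log (n / (2 * m + 1)) + 2 * (δ / 8 / n) ≤ Q / (n + 1) := by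
    rw [hns]
    by_cases hcase : s ≤ κ * n
    · -- small `s`
      have h1 : Real.log (n / (n - s)) ≤ s / (n - s) := by
        have h2 := Real.log_le_sub_one_of_pos (show (0 : ℝ) < n / (n - s) by positivity)
        have h3 : (n : ℝ) / (n - s) - 1 = s / (n - s) := by
          field_simp
          ring
        linarith
      have h4 : (1 - κ) * n ≤ n - s := by linarith
      have h5 : s / (n - s) ≤ s / ((1 - κ) * n) := by
        apply div_le_div_of_nonneg_left (by linarith) _ h4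
        apply mul_pos (by linarith) hn0
      have h6 : β * (s / ((1 - κ) * n)) = (β + δ / 2) * s / n := by
        have h7 : 1 - κ = 2 * β / (2 * β + δ) := by
          rw [hκ]
          field_simp
          ring
        rw [h7]
        field_simp
      have h8 : β * Real.log (n / (n - s)) ≤ (β + δ / 2) * s / n := by
        rw [← h6]
        exact mul_le_mul_of_nonneg_left (h1.trans h5) (by linarith)
      have h9 : 2 * (δ / 8 / n) ≤ (δ / 4) * s / n := by
        rw [mul_div_assoc', div_le_div_iff_of_pos_right hn0]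
        nlinarith
      have h10 : (β + δ / 2) * s / n + (δ / 4) * s / n ≤ (β + δ) * s / (n + 1) := by
        rw [← add_div, div_le_div_iff₀ hn0 (by linarith)]
        rw [div_le_iff₀ hδ0] at hB
        have h11 : (β + 3 * δ / 4) * (n + 1) ≤ (β + δ) * n := by nlinarith
        have h12 : ((β + δ / 2) * s + δ / 4 * s) * (n + 1) = s * ((β + 3 * δ / 4) * (n + 1)) := by
          ring
        have h13 : (β + δ) * s * n = s * ((β + δ) * n) := by ring
        rw [h12, h13]
        exact mul_le_mul_of_nonneg_left h11 (by linarith)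
      have h14 : (β + δ) * s / (n + 1) ≤ Q / (n + 1) :=
        div_le_div_of_nonneg_right hQa (by linarith)
      linarith
    · -- large `s`
      push Not at hcase
      have h1 : Real.log (n / (n - s)) ≤ Real.log n := by
        apply Real.log_le_log (by positivity)
        rw [div_le_iff₀ (by linarith)]
        nlinarith
      have h2 : β * Real.log (n / (n - s)) ≤ κ ^ 2 / 8 * n := by
        calc β * Real.log (n / (n - s)) ≤ β * (κ ^ 2 / (8 * β) * n) :=
              mul_le_mul_of_nonneg_left (h1.trans hL) (by linarith)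
          _ = κ ^ 2 / 8 * n := by field_simp
      have h3 : 2 * (δ / 8 / n) ≤ κ ^ 2 / 8 * n := by
        rw [div_le_iff₀ (by positivity)] at hC
        have h4 : 2 * (δ / 8 / (n : ℝ)) ≤ 2 * (δ / 8) := by
          have : δ / 8 / (n : ℝ) ≤ δ / 8 := div_le_self (by positivity) hn1
          linarith
        nlinarith
      have h5 : κ ^ 2 / 4 * n ≤ Q / (n + 1) := by
        rw [le_div_iff₀ (by linarith)]
        have h6 : (κ * n) ^ 2 ≤ s ^ 2 := by
          apply pow_le_pow_left₀ (by positivity) hcase.le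
        have h7 : κ ^ 2 / 4 * n * (n + 1) ≤ κ ^ 2 * n ^ 2 / 2 := by
          have h8 : (n : ℝ) * (n + 1) ≤ 2 * n ^ 2 := by nlinarith
          have h9 : 0 ≤ κ ^ 2 / 4 := by positivity
          nlinarith
        nlinarith
      linarith
  have hpow : ((n : ℝ) / (2 * m + 1)) ^ β = Real.exp (β * Real.log (n / (2 * m + 1))) := by
    rw [Real.rpow_def_of_pos (by positivity), mul_comm]
  have hx : δ / 8 / (n : ℝ) ≤ 1 / 8 := by
    rw [div_le_iff₀ hn0]
    linarith
  have hx0 : 0 ≤ δ / 8 / (n : ℝ) := by positivity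
  have hone : Real.exp (-(2 * (δ / 8 / n))) ≤ 1 - δ / 8 / n := by
    rw [Real.exp_neg]
    have h1 : 1 + 2 * (δ / 8 / (n : ℝ)) ≤ Real.exp (2 * (δ / 8 / n)) := by
      have := Real.add_one_le_exp (2 * (δ / 8 / (n : ℝ)))
      linarith
    have h2 : 0 < 1 + 2 * (δ / 8 / (n : ℝ)) := by linarith
    calc (Real.exp (2 * (δ / 8 / n)))⁻¹ ≤ (1 + 2 * (δ / 8 / (n : ℝ)))⁻¹ := inv_anti₀ h2 h1
      _ ≤ 1 - δ / 8 / n := by
        rw [inv_eq_one_div, div_le_iff₀ h2]
        nlinarith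
  have hC0 : (0 : ℝ) ≤ n.choose m := Nat.cast_nonneg _
  have hC1 : (0 : ℝ) ≤ n.choose (n / 2) := Nat.cast_nonneg _
  calc (n.choose m : ℝ) * ((n : ℝ) / (2 * m + 1)) ^ β
      ≤ n.choose m * (Real.exp (Q / (n + 1)) * Real.exp (-(2 * (δ / 8 / n)))) := by
        apply mul_le_mul_of_nonneg_left _ hC0
        rw [hpow, ← Real.exp_add]
        apply Real.exp_le_exp.mpr
        linarith
    _ = (n.choose m * Real.exp (Q / (n + 1))) * Real.exp (-(2 * (δ / 8 / n))) := by ring
    _ ≤ n.choose (n / 2) * (1 - δ / 8 / n) := by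
        apply mul_le_mul hmain hone (Real.exp_pos _).le hC1
    _ = (1 - δ / 8 / n) * n.choose (n / 2) := by ring

end Pool.Agent.LibRank66
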