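import Pool.Agent.LibRank66.Mono

/-!
# Isomorphism classes and labelled matroids: lower bound
-/

set_option autoImplicit false
set_option linter.unusedVariables false

namespace Pool.Agent.LibRank66

/-- The matroid on `Fin n` with a given nonempty family of bases. -/
noncomputable def toMat {n : ℕ} (𝓑 : Finset (Finset (Fin n))) (h1 : Exch 𝓑) (h2 : 𝓑.Nonempty) :
    Mat n :=
  ⟨Matroid.ofIsBaseOfFinite (E := Set.univ) (Set.toFinite _)
    (fun B => ∃ A ∈ 𝓑, (A : Set (Fin n)) = B)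
    (by obtain ⟨A, hA⟩ := h2; exact ⟨A, A, hA, rfl⟩)
    (by
      rintro X Y ⟨A, hA, rfl⟩ ⟨B, hB, rfl⟩ a ha
      obtain ⟨b, hb, hb'⟩ := h1 A hA B hB a (by
        rw [Finset.mem_sdiff]
        exact ⟨ha.1, ha.2⟩)
      refine ⟨b, ?_, _, hb', ?_⟩
      · rw [Finset.mem_sdiff] at hb
        exact ⟨hb.1, hb.2⟩
      · simp)
    (fun _ _ => Set.subset_univ _), rfl⟩

lemma toMat_isBase {n : ℕ} (𝓑 : Finset (Finset (Fin n))) (h1 : Exch 𝓑) (h2 : 𝓑.Nonempty)
    (A : Finset (Fin n)) : (toMat 𝓑 h1 h2).1.IsBase (A : Set (Fin n)) ↔ A ∈ 𝓑 := by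
  change (∃ A' ∈ 𝓑, (A' : Set (Fin n)) = A) ↔ _
  constructor
  · rintro ⟨A', hA', h⟩
    rwa [Finset.coe_inj.1 h] at hA'
  · intro h
    exact ⟨A, h, rfl⟩

instance finite_Mat (n : ℕ) : Finite (Mat n) := by
  refine Finite.of_injective (β := Set (Set (Fin n))) (fun M => {B | M.1.IsBase B}) ?_
  intro M N h
  apply Subtype.ext
  apply Matroid.ext_isBase
  · rw [M.2, N.2]
  · intro B _
    exact Set.ext_iff.1 h B

instance finite_IsoClass (n : ℕ) : Finite (IsoClass n) := by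
  unfold IsoClass
  infer_instance

theorem classes_lower (n c : ℕ) (hc : c ≤ n) :
    cnt n c ≤ n.factorial * numClasses n (fun _ => True) + 1 := by
  classical
  have hcard : (Fm (Finset.univ : Finset (Fin n)) c).card = cnt n c := by
    rw [Fm_card]
    simp
  rw [← hcard]
  set F := (Fm (Finset.univ : Finset (Fin n)) c).filter (·.Nonempty) with hF
  have h1 : (Fm (Finset.univ : Finset (Fin n)) c).card ≤ F.card + 1 := by
    rw [← Finset.card_filter_add_card_filter_not (s := Fm (Finset.univ : Finset (Fin n)) c)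
      (fun 𝓑 : Finset (Finset (Fin n)) => 𝓑.Nonempty)]
    refine Nat.add_le_add_left ?_ _
    refine (Finset.card_le_card (t := {∅}) ?_).trans (by simp)
    intro 𝓑 h
    rw [Finset.mem_filter, Finset.not_nonempty_iff_eq_empty] at h
    simp [h.2]
  have hE : ∀ 𝓑 ∈ F, Exch 𝓑 ∧ 𝓑.Nonempty := by
    intro 𝓑 h
    rw [hF, Finset.mem_filter, mem_Fm] at h
    exact ⟨h.1.2, h.2⟩
  let f : {𝓑 // 𝓑 ∈ F} → IsoClass n := fun 𝓑 =>
    Quotient.mk (isoSetoid n) (toMat 𝓑.1 (hE _ 𝓑.2).1 (hE _ 𝓑.2).2)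
  have h2 : F.attach.card ≤ n.factorial * (F.attach.image f).card := by
    refine Finset.card_le_mul_card_image _ _ ?_
    intro q hq
    obtain ⟨𝓑₀, h𝓑₀, rfl⟩ := Finset.mem_image.1 hq
    have hperm : ∀ 𝓑 : {𝓑 // 𝓑 ∈ F}, f 𝓑 = f 𝓑₀ → ∃ σ : Equiv.Perm (Fin n),
        ∀ A : Finset (Fin n), A ∈ 𝓑.1 ↔ A.map σ.toEmbedding ∈ 𝓑₀.1 := by
      intro 𝓑 h
      obtain ⟨σ, hσ⟩ : IsIso _ _ := Quotient.exact h
      refine ⟨σ, fun A => ?_⟩
      rw [← toMat_isBase 𝓑.1 (hE _ 𝓑.2).1 (hE _ 𝓑.2).2, hσ,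
        ← toMat_isBase 𝓑₀.1 (hE _ 𝓑₀.2).1 (hE _ 𝓑₀.2).2, Finset.coe_map]
      rfl
    choose! g hg using hperm
    have h3 : ((F.attach.filter fun x => f x = f 𝓑₀)).card ≤
        (Finset.univ : Finset (Equiv.Perm (Fin n))).card := by
      refine Finset.card_le_card_of_injOn g (fun _ _ => Finset.mem_coe.2 (Finset.mem_univ _)) ?_
      intro 𝓑 h 𝓑' h' heq
      have e1 := hg 𝓑 (Finset.mem_filter.1 (Finset.mem_coe.1 h)).2
      have e2 := hg 𝓑' (Finset.mem_filter.1 (Finset.mem_coe.1 h')).2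
      apply Subtype.ext
      ext A
      rw [e1, e2, heq]
    rw [Finset.card_univ, Fintype.card_perm, Fintype.card_fin] at h3
    exact h3
  have h4 : (F.attach.image f).card ≤ numClasses n (fun _ => True) := by
    rw [← Set.ncard_coe_finset]
    refine Set.ncard_le_ncard ?_ (Set.toFinite _)
    intro q hq
    obtain ⟨𝓑, _, rfl⟩ := Finset.mem_image.1 (Finset.mem_coe.1 hq)
    exact ⟨_, rfl, trivial⟩
  rw [Finset.card_attach] at h2
  exact h1.trans (Nat.add_le_add_right (h2.trans (Nat.mul_le_mul_left _ h4)) 1)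

end Pool.Agent.LibRank66
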