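import Mathlib

/-!
# Records of a slowly decreasing function have large logarithmic density
-/

set_option autoImplicit false

namespace Pool.Agent.LibRank66

/-- `n` is a record of `f n + β log n`. -/
def Rec (f : ℕ → ℝ) (β : ℝ) (n : ℕ) : Prop :=
  ∀ k : ℕ, 1 ≤ k → k < n → f k + β * Real.log k ≤ f n + β * Real.log n

open Classical in
theorem records_aux (f : ℕ → ℝ) (hf : ∀ n : ℕ, 1 ≤ n → f (n + 1) ≤ f n) (β : ℝ) (hβ : 1 < β)
    (N : ℕ) (hN : 1 ≤ N) : ∀ k : ℕ, 1 ≤ k → k ≤ N → f k + β * Real.log k ≤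
      f 1 + β * (∑ n ∈ (Finset.Icc 1 N).filter (fun n => Rec f β n), (1 : ℝ) / n +
        (1 - 1 / (N : ℝ))) := by
  induction N, hN using Nat.le_induction with
  | base =>
    intro k h1 h2
    have : k = 1 := by omega
    subst this
    have h0 : 0 ≤ ∑ n ∈ (Finset.Icc 1 1).filter (fun n => Rec f β n), (1 : ℝ) / n :=
      Finset.sum_nonneg (fun _ _ => by positivity)
    have h3 : 0 ≤ β * ∑ n ∈ (Finset.Icc 1 1).filter (fun n => Rec f β n), (1 : ℝ) / n :=
      mul_nonneg (by linarith) h0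
    simp only [Nat.cast_one, Real.log_one, mul_zero, add_zero, div_one, sub_self]
    linarith
  | succ N hN ih =>
    have hN0 : (0 : ℝ) < N := by exact_mod_cast hN
    have hsum : ∑ n ∈ (Finset.Icc 1 (N + 1)).filter (fun n => Rec f β n), (1 : ℝ) / n =
        (∑ n ∈ (Finset.Icc 1 N).filter (fun n => Rec f β n), (1 : ℝ) / n) +
          (if Rec f β (N + 1) then 1 / ((N + 1 : ℕ) : ℝ) else 0) := by
      rw [Finset.sum_filter, Finset.sum_Icc_succ_top (by omega), ← Finset.sum_filter]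
    have hstep : ∑ n ∈ (Finset.Icc 1 N).filter (fun n => Rec f β n), (1 : ℝ) / n +
        (1 - 1 / (N : ℝ)) ≤ ∑ n ∈ (Finset.Icc 1 (N + 1)).filter (fun n => Rec f β n), (1 : ℝ) / n +
        (1 - 1 / ((N + 1 : ℕ) : ℝ)) := by
      have h1 : (1 : ℝ) / ((N + 1 : ℕ) : ℝ) ≤ 1 / (N : ℝ) := by
        apply one_div_le_one_div_of_le hN0
        push_cast; linarith
      have h2 : (0 : ℝ) ≤ (if Rec f β (N + 1) then 1 / ((N + 1 : ℕ) : ℝ) else 0) := by
        split_ifs <;> positivity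
      rw [hsum]
      linarith
    have hmono : ∀ x : ℝ, x ≤ f 1 + β * (∑ n ∈ (Finset.Icc 1 N).filter (fun n => Rec f β n),
        (1 : ℝ) / n + (1 - 1 / (N : ℝ))) → x ≤ f 1 + β *
          (∑ n ∈ (Finset.Icc 1 (N + 1)).filter (fun n => Rec f β n), (1 : ℝ) / n +
        (1 - 1 / ((N + 1 : ℕ) : ℝ))) := by
      intro x hx
      have := mul_le_mul_of_nonneg_left hstep (show (0 : ℝ) ≤ β by linarith)
      linarith
    intro k h1 h2
    rcases Nat.lt_or_ge N k with h3 | h3
    · have hk : k = N + 1 := by omega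
      subst hk
      by_cases hr : Rec f β (N + 1)
      · have h4 := ih N hN (le_refl N)
        have h5 := hf N hN
        have h6 : Real.log ((N + 1 : ℕ) : ℝ) - Real.log N ≤ 1 / (N : ℝ) := by
          rw [← Real.log_div (by positivity) hN0.ne']
          have h7 : ((N + 1 : ℕ) : ℝ) / N = 1 + 1 / N := by
            push_cast; field_simp
          rw [h7]
          have := Real.log_le_sub_one_of_pos (show (0 : ℝ) < 1 + 1 / N by positivity)
          linarith
        rw [hsum, if_pos hr]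
        have h8 : β * (Real.log ((N + 1 : ℕ) : ℝ) - Real.log N) ≤ β * (1 / (N : ℝ)) :=
          mul_le_mul_of_nonneg_left h6 (by linarith)
        nlinarith
      · unfold Rec at hr
        push Not at hr
        obtain ⟨j, hj1, hj2, hj3⟩ := hr
        exact hj3.le.trans (hmono _ (ih j hj1 (by omega)))
    · exact hmono _ (ih k h1 h3)

open Classical in
theorem records (f : ℕ → ℝ) (hf : ∀ n : ℕ, 1 ≤ n → f (n + 1) ≤ f n) (C : ℝ)
    (hC : ∀ n : ℕ, 1 ≤ n → -Real.log n - C ≤ f n) (β : ℝ) (hβ : 1 < β) :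
    ∃ C' : ℝ, ∀ N : ℕ, 1 ≤ N → (1 - 1 / β) * Real.log N - C' ≤
      ∑ n ∈ (Finset.Icc 1 N).filter (fun n => Rec f β n), (1 : ℝ) / n := by
  have hβ0 : (0 : ℝ) < β := by linarith
  refine ⟨(C + f 1) / β + 1, fun N hN => ?_⟩
  have h1 := records_aux f hf β hβ N hN N hN (le_refl N)
  have h2 := hC N hN
  have hN0 : (0 : ℝ) < N := by exact_mod_cast hN
  have h3 : (0 : ℝ) ≤ 1 / (N : ℝ) := by positivity
  set Sm := ∑ n ∈ (Finset.Icc 1 N).filter (fun n => Rec f β n), (1 : ℝ) / n with hS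
  have h4 : (β - 1) * Real.log N - C - f 1 ≤ β * (Sm + 1) := by
    have : β * (Sm + (1 - 1 / (N : ℝ))) ≤ β * (Sm + 1) :=
      mul_le_mul_of_nonneg_left (by linarith) hβ0.le
    linarith
  have h5 : (1 - 1 / β) * Real.log N - ((C + f 1) / β + 1) =
      ((β - 1) * Real.log N - C - f 1) / β - 1 := by
    field_simp
    ring
  rw [h5]
  have h6 : ((β - 1) * Real.log N - C - f 1) / β ≤ Sm + 1 := by
    rw [div_le_iff₀ hβ0]; linarith
  linarith

end Pool.Agent.LibRank66
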