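import Pool.Agent.LibRank66.Dn
import Pool.Agent.LibRank66.Records
import Pool.Agent.LibRank66.Gap
import Pool.Agent.LibRank66.Iso

/-!
# The final estimate
-/

set_option autoImplicit false

namespace Pool.Agent.LibRank66

/-- `n` is good for `X`: all but at most a fraction `2 ^ (-n)` of the isomorphism classes of
matroids on `n` elements have rank `r` with `|r - n / 2| ≤ X - 1 / 2`. -/
def GoodFor (X n : ℕ) : Prop :=
  numClasses n (fun r => (2 * X : ℤ) ≤ |2 * (r : ℤ) - n|) * 2 ^ n ≤ numClasses n (fun _ => True)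

lemma D_pos (n : ℕ) (hn : 1 ≤ n) : 0 < D n := by
  have h := D_lower n hn
  have h2 : 0 < Real.log 2 / n := div_pos (Real.log_pos (by norm_num)) (by positivity)
  linarith

lemma cnt_pos (n r : ℕ) : 0 < cnt n r := Finset.card_pos.2 ⟨∅, empty_mem_Fm _ _⟩

lemma central_choose (n : ℕ) : (2 : ℝ) ^ n / (n + 1) ≤ n.choose (n / 2) := by
  rw [div_le_iff₀ (by positivity)]
  have h : 2 ^ n ≤ n.choose (n / 2) * (n + 1) := by
    rw [← Nat.sum_range_choose n]
    calc ∑ m ∈ Finset.range (n + 1), n.choose m ≤ ∑ m ∈ Finset.range (n + 1), n.choose (n / 2) :=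
          Finset.sum_le_sum fun m _ => Nat.choose_le_middle m n
      _ = n.choose (n / 2) * (n + 1) := by simp [mul_comm]
  exact_mod_cast h

/-- the maximum of the two central counts -/
lemma central_cnt (n : ℕ) : ∃ c, c ≤ n ∧
    Real.log (cnt n c) = n.choose (n / 2) * D n := by
  have hc : n.choose (n - n / 2) = n.choose (n / 2) := Nat.choose_symm (Nat.div_le_self n 2)
  have hpos : (0 : ℝ) < n.choose (n / 2) := by
    exact_mod_cast Nat.choose_pos (Nat.div_le_self n 2)
  rcases le_total (del n (n / 2)) (del n (n - n / 2)) with h | h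
  · refine ⟨n - n / 2, Nat.sub_le _ _, ?_⟩
    rw [D, max_eq_right h, del, hc, mul_div_cancel₀ _ hpos.ne']
  · refine ⟨n / 2, Nat.div_le_self n 2, ?_⟩
    rw [D, max_eq_left h, del, mul_div_cancel₀ _ hpos.ne']

lemma ev_growth (γ : ℝ) (hγ : 0 < γ) : ∀ᶠ n : ℕ in Filter.atTop,
    2 * ((n : ℝ) + 1) * 2 ^ n * n.factorial ≤
      Real.exp (γ * (Real.log 2 * (2 : ℝ) ^ n / (n * (n + 1))) / n) := by
  have h1 : Filter.Tendsto (fun n : ℕ => (n : ℝ) ^ 5 / (2 : ℝ) ^ n) Filter.atTop (nhds 0) :=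
    tendsto_pow_const_div_const_pow_of_one_lt 5 (by norm_num)
  have hl : 0 < Real.log 2 := Real.log_pos (by norm_num)
  have h2 : ∀ᶠ n : ℕ in Filter.atTop, (n : ℝ) ^ 5 / (2 : ℝ) ^ n < γ * Real.log 2 / 8 :=
    h1.eventually_lt_const (by positivity)
  filter_upwards [h2, Filter.eventually_ge_atTop 1] with n hn hn1
  have hn0 : (1 : ℝ) ≤ n := by exact_mod_cast hn1
  rw [div_lt_iff₀ (by positivity)] at hn
  have e1 : (n : ℝ) ≤ Real.exp n := by
    have := Real.add_one_le_exp (n : ℝ); linarith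
  have f1 : ((n.factorial : ℕ) : ℝ) ≤ Real.exp (n * n) := by
    have : ((n.factorial : ℕ) : ℝ) ≤ (n : ℝ) ^ n := by exact_mod_cast Nat.factorial_le_pow n
    calc ((n.factorial : ℕ) : ℝ) ≤ (n : ℝ) ^ n := this
      _ ≤ (Real.exp n) ^ n := pow_le_pow_left₀ (by positivity) e1 n
      _ = Real.exp (n * n) := by rw [← Real.exp_nat_mul]
  have f2 : (2 : ℝ) ^ n ≤ Real.exp n := by
    calc (2 : ℝ) ^ n ≤ (Real.exp 1) ^ n :=
          pow_le_pow_left₀ (by norm_num) (by have := Real.add_one_le_exp (1 : ℝ); linarith) n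
      _ = Real.exp n := by rw [← Real.exp_nat_mul, mul_one]
  have f3 : (n : ℝ) + 1 ≤ Real.exp n := Real.add_one_le_exp _
  have f4 : (2 : ℝ) ≤ Real.exp 1 := by have := Real.add_one_le_exp (1 : ℝ); linarith
  calc 2 * ((n : ℝ) + 1) * 2 ^ n * n.factorial
      ≤ Real.exp 1 * Real.exp n * Real.exp n * Real.exp (n * n) := by gcongr
    _ = Real.exp (1 + n + n + n * n) := by rw [Real.exp_add, Real.exp_add, Real.exp_add]
    _ ≤ _ := by
      apply Real.exp_le_exp.2
      have g1 : γ * (Real.log 2 * (2 : ℝ) ^ n / (n * (n + 1))) / n =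
          (γ * Real.log 2 * 2 ^ n) / (n * (n + 1) * n) := by field_simp
      rw [g1, le_div_iff₀ (by positivity)]
      have g2 : (1 + (n : ℝ) + n + n * n) * (n * (n + 1) * n) ≤ 8 * n ^ 5 := by
        have a1 : (1 + (n : ℝ) + n + n * n) ≤ 4 * n ^ 2 := by nlinarith
        have a2 : (n : ℝ) * (n + 1) * n ≤ 2 * n ^ 3 := by nlinarith [sq_nonneg (n : ℝ)]
        calc (1 + (n : ℝ) + n + n * n) * (n * (n + 1) * n) ≤ (4 * n ^ 2) * (2 * n ^ 3) := by
              gcongr
          _ = 8 * n ^ 5 := by ring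
      linarith

/-- records are good -/
theorem good_of_rec (X : ℕ) (hX : 1 ≤ X) (β : ℝ) (hβ1 : 1 < β)
    (hβ : β < 2 * (X : ℝ) ^ 2 / (2 * X - 1)) :
    ∃ n₀ : ℕ, ∀ n : ℕ, n₀ ≤ n → Rec (fun k => Real.log (D k)) β n → GoodFor X n := by
  obtain ⟨γ, hγ, n₁, hgap⟩ := gap X hX β hβ1 hβ
  obtain ⟨n₂, hgr⟩ := Filter.eventually_atTop.1 (ev_growth γ hγ)
  refine ⟨max (max n₁ n₂) 1, fun n hn hrec => ?_⟩
  have hn1 : n₁ ≤ n := le_trans (le_trans (le_max_left _ _) (le_max_left _ _)) hn
  have hn2 : n₂ ≤ n := le_trans (le_trans (le_max_right _ _) (le_max_left _ _)) hn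
  have hn3 : 1 ≤ n := le_trans (le_max_right _ _) hn
  have hn0 : (1 : ℝ) ≤ n := by exact_mod_cast hn3
  set Λ : ℝ := n.choose (n / 2) * D n with hΛ
  have hDn := D_pos n hn3
  -- non-central counts
  have key : ∀ r, r ≤ n → (2 * X : ℤ) ≤ |2 * (r : ℤ) - n| →
      (cnt n r : ℝ) ≤ Real.exp ((1 - γ / n) * Λ) := by
    intro r hr h
    have hm : 2 * min r (n - r) + 2 * X ≤ n := by
      rcases abs_cases (2 * (r : ℤ) - n) with ⟨h1, h2⟩ | ⟨h1, h2⟩ <;> omega
    set m := min r (n - r) with hmdef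
    have hk : 2 * m + 1 < n := by omega
    have hch : n.choose r = n.choose m := by
      rcases min_cases r (n - r) with ⟨h1, h2⟩ | ⟨h1, h2⟩
      · rw [hmdef, h1]
      · rw [hmdef, h1, Nat.choose_symm hr]
    have h1 := log_cnt_le n r hr hk.le
    rw [← hmdef, hch] at h1
    have hDk := D_pos (2 * m + 1) (by omega)
    have h2 := hrec (2 * m + 1) (by omega) hk
    have hkpos : (0 : ℝ) < ((2 * m + 1 : ℕ) : ℝ) := by positivity
    have h3 : D (2 * m + 1) ≤ D n * ((n : ℝ) / (2 * m + 1)) ^ β := by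
      have h4 : Real.log (D (2 * m + 1)) ≤
          Real.log (D n * ((n : ℝ) / (2 * m + 1)) ^ β) := by
        rw [Real.log_mul hDn.ne' (by positivity), Real.log_rpow (by positivity),
          Real.log_div (by positivity) (by positivity)]
        have h2' : Real.log (D (2 * m + 1)) + β * Real.log ((2 * m + 1 : ℕ) : ℝ) ≤
          Real.log (D n) + β * Real.log n := h2
        push_cast at h2'
        linarith
      exact (Real.log_le_log_iff hDk (by positivity)).1 h4
    have h5 : Real.log (cnt n r) ≤ (1 - γ / n) * Λ := by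
      calc Real.log (cnt n r) ≤ n.choose m * D (2 * m + 1) := h1
        _ ≤ n.choose m * (D n * ((n : ℝ) / (2 * m + 1)) ^ β) := by gcongr
        _ = (n.choose m * ((n : ℝ) / (2 * m + 1)) ^ β) * D n := by ring
        _ ≤ ((1 - γ / n) * n.choose (n / 2)) * D n :=
            mul_le_mul_of_nonneg_right (hgap n hn1 m hm) hDn.le
        _ = (1 - γ / n) * Λ := by rw [hΛ]; ring
    have hc : (0 : ℝ) < cnt n r := by exact_mod_cast cnt_pos n r
    rw [← Real.exp_log hc]
    exact Real.exp_le_exp.2 h5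
  -- the number of non-central classes
  classical
  obtain ⟨P, hP⟩ : ∃ P : ℕ → Prop, P = fun r : ℕ => (2 * X : ℤ) ≤ |2 * (r : ℤ) - n| :=
    ⟨_, rfl⟩
  have up : (numClasses n P : ℝ) ≤ (n + 1) * Real.exp ((1 - γ / n) * Λ) := by
    have h1 := classes_upper n P
    have h2 : (numClasses n P : ℝ) ≤
        ∑ r ∈ (Finset.range (n + 1)).filter P, (cnt n r : ℝ) := by exact_mod_cast h1
    refine h2.trans ?_
    calc ∑ r ∈ (Finset.range (n + 1)).filter P, (cnt n r : ℝ)
        ≤ ∑ r ∈ (Finset.range (n + 1)).filter P, Real.exp ((1 - γ / n) * Λ) := by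
          refine Finset.sum_le_sum fun r hr => ?_
          rw [Finset.mem_filter, Finset.mem_range] at hr
          refine key r (by omega) ?_
          have := hr.2
          rw [hP] at this
          exact this
      _ ≤ (n + 1) * Real.exp ((1 - γ / n) * Λ) := by
          rw [Finset.sum_const, nsmul_eq_mul]
          refine mul_le_mul_of_nonneg_right ?_ (Real.exp_pos _).le
          have := Finset.card_filter_le (Finset.range (n + 1)) P
          rw [Finset.card_range] at this
          exact_mod_cast this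
  -- all classes
  obtain ⟨c, hcn, hc⟩ := central_cnt n
  have low : Real.exp Λ ≤ n.factorial * numClasses n (fun _ => True) + 1 := by
    have h1 := classes_lower n c hcn
    have h2 : (cnt n c : ℝ) ≤ n.factorial * numClasses n (fun _ => True) + 1 := by
      exact_mod_cast h1
    have hcp : (0 : ℝ) < cnt n c := by exact_mod_cast cnt_pos n c
    rw [hΛ, ← hc, Real.exp_log hcp]
    exact h2
  have hl : 0 < Real.log 2 := Real.log_pos (by norm_num)
  have hΛ1 : Real.log 2 * (2 : ℝ) ^ n / (n * (n + 1)) ≤ Λ := by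
    have h1 := central_choose n
    have h2 := D_lower n hn3
    have h3 : Real.log 2 * (2 : ℝ) ^ n / (n * (n + 1)) =
      ((2 : ℝ) ^ n / (n + 1)) * (Real.log 2 / n) := by field_simp
    rw [h3, hΛ]
    gcongr
  have hΛ2 : Real.log 2 ≤ Λ := by
    have h2 := D_lower n hn3
    have h1 : (n : ℝ) ≤ n.choose (n / 2) := by
      have := Nat.choose_le_middle 1 n
      rw [Nat.choose_one_right] at this
      exact_mod_cast this
    calc Real.log 2 = n * (Real.log 2 / n) := by field_simp
      _ ≤ n.choose (n / 2) * D n := by gcongr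
  have hexp2 : 2 ≤ Real.exp Λ := by
    calc (2 : ℝ) = Real.exp (Real.log 2) := (Real.exp_log (by norm_num)).symm
      _ ≤ _ := Real.exp_le_exp.2 hΛ2
  have hgr' := hgr n hn2
  have hgr2 : 2 * ((n : ℝ) + 1) * 2 ^ n * n.factorial ≤ Real.exp (γ * Λ / n) := by
    refine hgr'.trans (Real.exp_le_exp.2 ?_)
    gcongr
  have hfac : (0 : ℝ) < n.factorial := by exact_mod_cast n.factorial_pos
  have fin : (numClasses n P : ℝ) * 2 ^ n ≤ numClasses n (fun _ => True) := by
    have h1 : (numClasses n P : ℝ) * 2 ^ n * (2 * n.factorial) ≤ Real.exp Λ := by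
      calc (numClasses n P : ℝ) * 2 ^ n * (2 * n.factorial)
          ≤ ((n + 1) * Real.exp ((1 - γ / n) * Λ)) * 2 ^ n * (2 * n.factorial) := by gcongr
        _ = (2 * ((n : ℝ) + 1) * 2 ^ n * n.factorial) * Real.exp ((1 - γ / n) * Λ) := by ring
        _ ≤ Real.exp (γ * Λ / n) * Real.exp ((1 - γ / n) * Λ) := by gcongr
        _ = Real.exp Λ := by rw [← Real.exp_add]; congr 1; ring
    have h2 : Real.exp Λ ≤ 2 * n.factorial * numClasses n (fun _ => True) := by linarith
    have h3 : (numClasses n P : ℝ) * 2 ^ n * (2 * n.factorial) ≤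
        numClasses n (fun _ => True) * (2 * n.factorial) := by linarith
    exact le_of_mul_le_mul_right h3 (by positivity)
  have fin' : numClasses n P * 2 ^ n ≤ numClasses n (fun _ => True) := by exact_mod_cast fin
  rw [hP] at fin'
  exact fin'

open Classical in
theorem main (X : ℕ) (hX : 1 ≤ X) (ε : ℝ) (hε : 0 < ε) :
    ∀ᶠ N : ℕ in Filter.atTop,
      (1 - (2 * X - 1) / (2 * (X : ℝ) ^ 2) - ε) * Real.log N ≤
        ∑ n ∈ (Finset.Icc 1 N).filter (fun n => GoodFor X n), (1 : ℝ) / n := by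
  have hX' : (1 : ℝ) ≤ X := by exact_mod_cast hX
  set q : ℝ := (2 * X - 1) / (2 * (X : ℝ) ^ 2) with hq
  have hq0 : 0 < q := div_pos (by linarith) (by positivity)
  have hq1 : q ≤ 1 / 2 := by
    rw [hq, div_le_iff₀ (by positivity)]
    nlinarith [sq_nonneg ((X : ℝ) - 1)]
  set ε' : ℝ := min (ε / 2) (1 / 4) with hε'
  have hε'0 : 0 < ε' := lt_min (by linarith) (by norm_num)
  have hε'1 : ε' ≤ ε / 2 := min_le_left _ _
  have hε'2 : ε' ≤ 1 / 4 := min_le_right _ _
  set β : ℝ := 1 / (q + ε') with hβ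
  have hβ1 : 1 < β := by
    rw [hβ, lt_div_iff₀ (by linarith)]; linarith
  have hβ2 : β < 2 * (X : ℝ) ^ 2 / (2 * X - 1) := by
    have : 2 * (X : ℝ) ^ 2 / (2 * X - 1) = 1 / q := by rw [hq, one_div_div]
    rw [this, hβ]
    exact one_div_lt_one_div_of_lt hq0 (by linarith)
  obtain ⟨n₀, hn₀⟩ := good_of_rec X hX β hβ1 hβ2
  obtain ⟨C', hC'⟩ := records (fun k => Real.log (D k))
    (fun n hn => Real.log_le_log (D_pos (n + 1) (by omega)) (D_anti n hn))
    (-Real.log (Real.log 2)) (fun n hn => by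
      have h1 := D_lower n hn
      have hl : 0 < Real.log 2 := Real.log_pos (by norm_num)
      have hn' : (0 : ℝ) < n := by exact_mod_cast hn
      have h2 := Real.log_le_log (div_pos hl hn') h1
      rw [Real.log_div hl.ne' hn'.ne'] at h2
      linarith) β hβ1
  have hlog : Filter.Tendsto (fun N : ℕ => Real.log (N : ℝ)) Filter.atTop Filter.atTop :=
    Real.tendsto_log_atTop.comp tendsto_natCast_atTop_atTop
  have hev : ∀ᶠ N : ℕ in Filter.atTop, (C' + n₀) / (ε / 2) ≤ Real.log (N : ℝ) :=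
    hlog.eventually_ge_atTop _
  filter_upwards [hev, Filter.eventually_ge_atTop 1] with N hN hN1
  have h1 := hC' N hN1
  have h2 : (1 : ℝ) - 1 / β = 1 - q - ε' := by rw [hβ, one_div_one_div]; ring
  rw [h2] at h1
  have hlogN : 0 ≤ Real.log (N : ℝ) := Real.log_natCast_nonneg N
  have h3 : ∑ n ∈ (Finset.Icc 1 N).filter (fun n => Rec (fun k => Real.log (D k)) β n),
      (1 : ℝ) / n ≤ ∑ n ∈ (Finset.Icc 1 N).filter (fun n => GoodFor X n), (1 : ℝ) / n + n₀ := by
    have hsub : (Finset.Icc 1 N).filter (fun n => Rec (fun k => Real.log (D k)) β n) ⊆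
        (Finset.Icc 1 N).filter (fun n => GoodFor X n) ∪ Finset.Icc 1 n₀ := by
      intro n hn
      rw [Finset.mem_filter, Finset.mem_Icc] at hn
      rw [Finset.mem_union, Finset.mem_filter, Finset.mem_Icc, Finset.mem_Icc]
      rcases le_total n₀ n with h | h
      · exact Or.inl ⟨hn.1, hn₀ n h hn.2⟩
      · exact Or.inr ⟨hn.1.1, h⟩
    calc ∑ n ∈ (Finset.Icc 1 N).filter (fun n => Rec (fun k => Real.log (D k)) β n), (1 : ℝ) / n
        ≤ ∑ n ∈ (Finset.Icc 1 N).filter (fun n => GoodFor X n) ∪ Finset.Icc 1 n₀, (1 : ℝ) / n :=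
          Finset.sum_le_sum_of_subset_of_nonneg hsub fun n _ _ => by positivity
      _ ≤ ∑ n ∈ (Finset.Icc 1 N).filter (fun n => GoodFor X n), (1 : ℝ) / n +
          ∑ n ∈ Finset.Icc 1 n₀, (1 : ℝ) / n := by
          have := Finset.sum_union_inter (s₁ := (Finset.Icc 1 N).filter (fun n => GoodFor X n))
            (s₂ := Finset.Icc 1 n₀) (f := fun n : ℕ => (1 : ℝ) / n)
          have h0 : 0 ≤ ∑ n ∈ (Finset.Icc 1 N).filter (fun n => GoodFor X n) ∩ Finset.Icc 1 n₀,
            (1 : ℝ) / n := Finset.sum_nonneg fun n _ => by positivity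
          linarith
      _ ≤ _ := by
          have : ∑ n ∈ Finset.Icc 1 n₀, (1 : ℝ) / n ≤ ∑ n ∈ Finset.Icc 1 n₀, (1 : ℝ) := by
            refine Finset.sum_le_sum fun n hn => ?_
            rw [Finset.mem_Icc] at hn
            have : (1 : ℝ) ≤ n := by exact_mod_cast hn.1
            rw [div_le_one (by linarith)]
            exact this
          simp only [Finset.sum_const, Nat.card_Icc, nsmul_eq_mul, mul_one] at this
          have h' : ((n₀ + 1 - 1 : ℕ) : ℝ) = n₀ := by simp
          rw [h'] at this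
          linarith
  have h4 : C' + n₀ ≤ (ε / 2) * Real.log N := by
    rw [div_le_iff₀ (by linarith)] at hN
    linarith
  have h5 : ε' * Real.log N ≤ (ε / 2) * Real.log N :=
    mul_le_mul_of_nonneg_right hε'1 hlogN
  nlinarith

end Pool.Agent.LibRank66
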