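import Pool.Agent.LibRank66.Mono

/-!
# Isomorphism classes and labelled matroids
-/

set_option autoImplicit false

namespace Pool.Agent.LibRank66

open Classical in
/-- The family of bases of a matroid on `Fin n`, as a family of finite sets of natural numbers. -/
private noncomputable def famU {n : ℕ} (M : Mat n) : Finset (Finset ℕ) :=
  ((Finset.univ : Finset (Finset (Fin n))).filter
    fun B : Finset (Fin n) => M.1.IsBase (B : Set (Fin n))).image (Finset.map Fin.valEmbedding)

private theorem mem_famU {n : ℕ} (M : Mat n) (X : Finset ℕ) :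
    X ∈ famU M ↔ ∃ B : Finset (Fin n), M.1.IsBase (B : Set (Fin n)) ∧
      B.map Fin.valEmbedding = X := by
  classical
  simp [famU]

private theorem map_mem_famU {n : ℕ} (M : Mat n) (B : Finset (Fin n)) :
    B.map Fin.valEmbedding ∈ famU M ↔ M.1.IsBase (B : Set (Fin n)) := by
  rw [mem_famU]
  constructor
  · rintro ⟨C, hC, h⟩
    rwa [Finset.map_inj.1 h] at hC
  · exact fun h => ⟨B, h, rfl⟩

private theorem card_baseU {n : ℕ} (M : Mat n) {B : Finset (Fin n)}
    (hB : M.1.IsBase (B : Set (Fin n))) : B.card = rk M := by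
  unfold rk
  rw [← hB.encard_eq_eRank, Set.encard_coe_eq_coe_finsetCard]
  rfl

private theorem rk_ltU {n : ℕ} (M : Mat n) : rk M < n + 1 := by
  classical
  obtain ⟨B, hB⟩ := M.1.exists_isBase
  have hB' : M.1.IsBase ((B.toFinset : Finset (Fin n)) : Set (Fin n)) := by
    rwa [Set.coe_toFinset]
  rw [← card_baseU M hB']
  have := Finset.card_le_univ B.toFinset
  rw [Fintype.card_fin] at this
  omega

private theorem famU_mem_Fm {n : ℕ} (M : Mat n) : famU M ∈ Fm (Finset.range n) (rk M) := by
  rw [mem_Fm]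
  refine ⟨fun X hX => ?_, fun X hX Y hY a ha => ?_⟩
  · obtain ⟨B, hB, rfl⟩ := (mem_famU M X).1 hX
    rw [Finset.mem_powersetCard]
    refine ⟨fun i hi => ?_, ?_⟩
    · obtain ⟨j, -, rfl⟩ := Finset.mem_map.1 hi
      exact Finset.mem_range.2 j.2
    · rw [Finset.card_map, card_baseU M hB]
  · obtain ⟨B, hB, rfl⟩ := (mem_famU M X).1 hX
    obtain ⟨C, hC, rfl⟩ := (mem_famU M Y).1 hY
    rw [Finset.mem_sdiff] at ha
    obtain ⟨e, he, rfl⟩ := Finset.mem_map.1 ha.1
    have heC : e ∉ C := fun h => ha.2 (Finset.mem_map_of_mem _ h)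
    obtain ⟨y, hy, hyB⟩ := hB.exchange hC (e := e) ⟨he, heC⟩
    refine ⟨Fin.valEmbedding y, ?_, ?_⟩
    · rw [Finset.mem_sdiff]
      refine ⟨Finset.mem_map_of_mem _ hy.1, fun h => hy.2 ?_⟩
      exact (Finset.mem_map' _).1 h
    · have h1 : insert (Fin.valEmbedding y) ((B.map Fin.valEmbedding).erase (Fin.valEmbedding e)) =
          (insert y (B.erase e)).map Fin.valEmbedding := by
        rw [Finset.map_insert, Finset.map_erase]
      rw [h1, map_mem_famU]
      have h2 : ((insert y (B.erase e) : Finset (Fin n)) : Set (Fin n)) =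
          insert y ((B : Set (Fin n)) \ {e}) := by
        rw [Finset.coe_insert, Finset.coe_erase]
      rwa [h2]

private theorem famU_injective {n : ℕ} {M N : Mat n} (h : famU M = famU N) : M = N := by
  classical
  apply Subtype.ext
  apply Matroid.ext_isBase (M.2.trans N.2.symm)
  intro B _
  have h1 := map_mem_famU M B.toFinset
  have h2 := map_mem_famU N B.toFinset
  rw [Set.coe_toFinset] at h1 h2
  rw [← h1, ← h2, h]

open Classical in
theorem classes_upper (n : ℕ) (P : ℕ → Prop) :
    numClasses n P ≤ ∑ r ∈ (Finset.range (n + 1)).filter P, cnt n r := by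
  have hcard : ((((Finset.range (n + 1)).filter P).sigma
      (fun r => Fm (Finset.range n) r) : Finset (Σ _ : ℕ, Finset (Finset ℕ))) :
      Set (Σ _ : ℕ, Finset (Finset ℕ))).ncard =
      ∑ r ∈ (Finset.range (n + 1)).filter P, cnt n r := by
    rw [Set.ncard_coe_finset, Finset.card_sigma]
    rfl
  rw [← hcard]
  unfold numClasses
  let f : IsoClass n → (Σ _ : ℕ, Finset (Finset ℕ)) := fun c =>
    if h : ∃ M : Mat n, Quotient.mk (isoSetoid n) M = c ∧ P (rk M) then
      ⟨rk h.choose, famU h.choose⟩ else ⟨0, ∅⟩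
  have hf : ∀ c, (h : ∃ M : Mat n, Quotient.mk (isoSetoid n) M = c ∧ P (rk M)) →
      f c = ⟨rk h.choose, famU h.choose⟩ := fun c h => dif_pos h
  refine Set.ncard_le_ncard_of_injOn f (fun c hc => ?_) (fun c hc d hd hcd => ?_)
    (Finset.finite_toSet _)
  · have hc' : ∃ M : Mat n, Quotient.mk (isoSetoid n) M = c ∧ P (rk M) := hc
    rw [hf c hc', Finset.mem_coe, Finset.mem_sigma, Finset.mem_filter, Finset.mem_range]
    exact ⟨⟨rk_ltU _, hc'.choose_spec.2⟩, famU_mem_Fm _⟩
  · have hc' : ∃ M : Mat n, Quotient.mk (isoSetoid n) M = c ∧ P (rk M) := hc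
    have hd' : ∃ M : Mat n, Quotient.mk (isoSetoid n) M = d ∧ P (rk M) := hd
    rw [hf c hc', hf d hd'] at hcd
    have h2 : famU hc'.choose = famU hd'.choose := by
      have := congrArg (fun p : (Σ _ : ℕ, Finset (Finset ℕ)) => p.2) hcd
      exact this
    rw [← hc'.choose_spec.1, ← hd'.choose_spec.1, famU_injective h2]

end Pool.Agent.LibRank66
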