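import Pool.Agent.LibRank66.Defs
import Pool.Agent.LibRank66.Shearer

/-!
# Deletion and contraction
-/

set_option autoImplicit false

namespace Pool.Agent.LibRank66

/-- Transport of a family of sets along an embedding. -/
def mapFam {α β : Type*} (f : α ↪ β) (𝓑 : Finset (Finset α)) : Finset (Finset β) :=
  𝓑.map (Finset.mapEmbedding f).toEmbedding

lemma mem_mapFam {α β : Type*} (f : α ↪ β) {𝓑 : Finset (Finset α)} {C : Finset β} :
    C ∈ mapFam f 𝓑 ↔ ∃ A ∈ 𝓑, A.map f = C := by
  simp [mapFam, Finset.mapEmbedding_apply]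

lemma map_mem_mapFam {α β : Type*} (f : α ↪ β) {𝓑 : Finset (Finset α)} {A : Finset α} :
    A.map f ∈ mapFam f 𝓑 ↔ A ∈ 𝓑 := by
  rw [mem_mapFam]
  constructor
  · rintro ⟨B, hB, h⟩
    rw [← Finset.map_injective f h]
    exact hB
  · intro h
    exact ⟨A, h, rfl⟩

lemma exch_mapFam {α β : Type*} [DecidableEq α] [DecidableEq β] (f : α ↪ β)
    (𝓑 : Finset (Finset α)) : Exch (mapFam f 𝓑) ↔ Exch 𝓑 := by
  have key : ∀ (A : Finset α) (a b : α),
      insert (f b) ((A.map f).erase (f a)) = (insert b (A.erase a)).map f := by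
    intro A a b
    rw [Finset.map_insert, Finset.map_erase]
  constructor
  · intro h A hA B hB a ha
    rw [Finset.mem_sdiff] at ha
    obtain ⟨b', hb', h'⟩ := h (A.map f) ((map_mem_mapFam f).2 hA) (B.map f)
      ((map_mem_mapFam f).2 hB) (f a) (by simp [ha.1, ha.2])
    rw [Finset.mem_sdiff, Finset.mem_map] at hb'
    obtain ⟨⟨b, hb, rfl⟩, hbA⟩ := hb'
    refine ⟨b, ?_, ?_⟩
    · rw [Finset.mem_sdiff]
      refine ⟨hb, fun h'' => hbA ?_⟩
      exact Finset.mem_map_of_mem f h''
    · rw [key, map_mem_mapFam] at h'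
      exact h'
  · intro h A' hA' B' hB' a' ha'
    obtain ⟨A, hA, rfl⟩ := (mem_mapFam f).1 hA'
    obtain ⟨B, hB, rfl⟩ := (mem_mapFam f).1 hB'
    rw [Finset.mem_sdiff, Finset.mem_map] at ha'
    obtain ⟨⟨a, ha, rfl⟩, haB⟩ := ha'
    obtain ⟨b, hb, h'⟩ := h A hA B hB a (by
      rw [Finset.mem_sdiff]
      exact ⟨ha, fun h'' => haB (Finset.mem_map_of_mem f h'')⟩)
    rw [Finset.mem_sdiff] at hb
    refine ⟨f b, by simp [hb.1, hb.2], ?_⟩
    rw [key, map_mem_mapFam]
    exact h'

lemma Fm_map {α β : Type*} [DecidableEq α] [DecidableEq β] (f : α ↪ β) (S : Finset α) (r : ℕ) :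
    (Fm (S.map f) r).card = (Fm S r).card := by
  have : Fm (S.map f) r = (Fm S r).image (mapFam f) := by
    ext 𝓒
    rw [mem_Fm, Finset.mem_image, Finset.powersetCard_map]
    constructor
    · rintro ⟨h1, h2⟩
      obtain ⟨𝓑, hB, rfl⟩ := Finset.subset_map_iff.1 h1
      refine ⟨𝓑, ?_, rfl⟩
      rw [mem_Fm]
      exact ⟨hB, (exch_mapFam f 𝓑).1 h2⟩
    · rintro ⟨𝓑, hB, rfl⟩
      rw [mem_Fm] at hB
      exact ⟨Finset.map_subset_map.2 hB.1, (exch_mapFam f 𝓑).2 hB.2⟩
  have hinj : Function.Injective (mapFam f) := fun _ _ h =>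
    Finset.map_injective (Finset.mapEmbedding f).toEmbedding h
  rw [this, Finset.card_image_of_injective _ hinj]

theorem Fm_card {α : Type*} [DecidableEq α] (S : Finset α) (r : ℕ) :
    (Fm S r).card = cnt S.card r := by
  have h1 := Fm_map (Function.Embedding.subtype (· ∈ S)) (Finset.univ : Finset S) r
  have h1' : (Finset.univ : Finset S).map (Function.Embedding.subtype (· ∈ S)) = S := by
    rw [Finset.univ_eq_attach]
    exact Finset.attach_map_val
  rw [h1'] at h1
  have h2 := Fm_map S.equivFin.toEmbedding (Finset.univ : Finset S) r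
  rw [Finset.map_univ_equiv] at h2
  have h3 := Fm_map Fin.valEmbedding (Finset.univ : Finset (Fin S.card)) r
  rw [Fin.map_valEmbedding_univ, Nat.Iio_eq_range] at h3
  rw [h1, ← h2, ← h3]
  rfl

/-- traces of the deletion -/
lemma inter_del {α : Type*} [DecidableEq α] {S : Finset α} {r : ℕ} {𝓑 : Finset (Finset α)}
    (h : 𝓑 ∈ Fm S r) (e : α) :
    𝓑 ∩ (S.powersetCard r).filter (fun A => e ∉ A) ∈ Fm (S.erase e) r := by
  rw [mem_Fm] at h ⊢
  constructor
  · intro A hA
    rw [Finset.mem_inter, Finset.mem_filter, Finset.mem_powersetCard] at hA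
    rw [Finset.mem_powersetCard]
    exact ⟨Finset.subset_erase.2 ⟨hA.2.1.1, hA.2.2⟩, hA.2.1.2⟩
  · intro A hA B hB a ha
    rw [Finset.mem_inter, Finset.mem_filter] at hA hB
    obtain ⟨b, hb, h'⟩ := h.2 A hA.1 B hB.1 a ha
    refine ⟨b, hb, ?_⟩
    rw [Finset.mem_inter, Finset.mem_filter]
    refine ⟨h', h.1 h', ?_⟩
    rw [Finset.mem_insert, Finset.mem_erase]
    rintro (h'' | h'')
    · subst h''
      exact hB.2.2 (Finset.mem_sdiff.1 hb).1
    · exact hA.2.2 h''.2

/-- traces of the contraction -/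
lemma inter_con {α : Type*} [DecidableEq α] {S : Finset α} {r : ℕ} {𝓑 : Finset (Finset α)}
    (h : 𝓑 ∈ Fm S (r + 1)) (e : α) :
    (𝓑 ∩ (S.powersetCard (r + 1)).filter (fun A => e ∈ A)).image (fun A => A.erase e) ∈
      Fm (S.erase e) r := by
  rw [mem_Fm] at h ⊢
  constructor
  · intro A' hA'
    obtain ⟨A, hA, rfl⟩ := Finset.mem_image.1 hA'
    rw [Finset.mem_inter, Finset.mem_filter, Finset.mem_powersetCard] at hA
    rw [Finset.mem_powersetCard]
    refine ⟨Finset.erase_subset_erase e hA.2.1.1, ?_⟩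
    rw [Finset.card_erase_of_mem hA.2.2, hA.2.1.2]
    rfl
  · intro A' hA' B' hB' a ha
    obtain ⟨A, hA, rfl⟩ := Finset.mem_image.1 hA'
    obtain ⟨B, hB, rfl⟩ := Finset.mem_image.1 hB'
    rw [Finset.mem_inter, Finset.mem_filter] at hA hB
    rw [Finset.mem_sdiff, Finset.mem_erase, Finset.mem_erase] at ha
    have hae : a ≠ e := ha.1.1
    have haB : a ∉ B := fun h' => ha.2 ⟨hae, h'⟩
    obtain ⟨b, hb, h'⟩ := h.2 A hA.1 B hB.1 a (Finset.mem_sdiff.2 ⟨ha.1.2, haB⟩)
    rw [Finset.mem_sdiff] at hb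
    have hbe : b ≠ e := by
      rintro rfl
      exact hb.2 hA.2.2
    refine ⟨b, ?_, ?_⟩
    · rw [Finset.mem_sdiff, Finset.mem_erase, Finset.mem_erase]
      exact ⟨⟨hbe, hb.1⟩, fun h'' => hb.2 h''.2⟩
    · rw [Finset.mem_image]
      refine ⟨insert b (A.erase a), ?_, ?_⟩
      · rw [Finset.mem_inter, Finset.mem_filter]
        refine ⟨h', h.1 h', ?_⟩
        rw [Finset.mem_insert, Finset.mem_erase]
        exact Or.inr ⟨hae.symm, hA.2.2⟩
      · rw [Finset.erase_insert_of_ne hbe, Finset.erase_right_comm]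

theorem cnt_del (n r : ℕ) (h : r ≤ n) : cnt (n + 1) r ^ (n + 1 - r) ≤ cnt n r ^ (n + 1) := by
  have hS := shearer (ι := Fin (n + 1)) (Fm (Finset.range (n + 1)) r)
    (fun i => ((Finset.range (n + 1)).powersetCard r).filter (fun A => (i : ℕ) ∉ A)) (n + 1 - r)
    ((Finset.range (n + 1)).powersetCard r) (fun F hF => (mem_Fm.1 hF).1) (by
      intro A hA
      rw [Finset.mem_powersetCard] at hA
      have h1 : (Finset.univ.filter fun i : Fin (n + 1) => A ∈
          ((Finset.range (n + 1)).powersetCard r).filter (fun A => (i : ℕ) ∉ A)).map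
            Fin.valEmbedding = Finset.range (n + 1) \ A := by
        ext x
        simp only [Finset.mem_map, Finset.mem_filter, Finset.mem_univ, true_and,
          Finset.mem_powersetCard, Fin.valEmbedding_apply, Finset.mem_sdiff, Finset.mem_range]
        constructor
        · rintro ⟨i, hi, rfl⟩
          exact ⟨i.2, hi.2⟩
        · rintro ⟨hx, hxA⟩
          exact ⟨⟨x, hx⟩, ⟨hA, hxA⟩, rfl⟩
      rw [← Finset.card_map Fin.valEmbedding, h1, Finset.card_sdiff_of_subset hA.1,
        Finset.card_range, hA.2]) ⟨∅, empty_mem_Fm _ _⟩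
  refine hS.trans ?_
  have h2 : ∀ i : Fin (n + 1), ((Fm (Finset.range (n + 1)) r).image fun F => F ∩
      ((Finset.range (n + 1)).powersetCard r).filter (fun A => (i : ℕ) ∉ A)).card ≤ cnt n r := by
    intro i
    have h3 : cnt n r = (Fm ((Finset.range (n + 1)).erase (i : ℕ)) r).card := by
      rw [Fm_card, Finset.card_erase_of_mem (Finset.mem_range.2 i.2), Finset.card_range]
      rfl
    rw [h3]
    refine Finset.card_le_card fun G hG => ?_
    obtain ⟨F, hF, rfl⟩ := Finset.mem_image.1 hG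
    exact inter_del hF _
  calc _ ≤ ∏ _i : Fin (n + 1), cnt n r := Finset.prod_le_prod' fun i _ => h2 i
    _ = cnt n r ^ (n + 1) := by simp

theorem cnt_con (n r : ℕ) (h : r ≤ n) : cnt (n + 1) (r + 1) ^ (r + 1) ≤ cnt n r ^ (n + 1) := by
  have hS := shearer (ι := Fin (n + 1)) (Fm (Finset.range (n + 1)) (r + 1))
    (fun i => ((Finset.range (n + 1)).powersetCard (r + 1)).filter (fun A => (i : ℕ) ∈ A)) (r + 1)
    ((Finset.range (n + 1)).powersetCard (r + 1)) (fun F hF => (mem_Fm.1 hF).1) (by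
      intro A hA
      rw [Finset.mem_powersetCard] at hA
      have h1 : (Finset.univ.filter fun i : Fin (n + 1) => A ∈
          ((Finset.range (n + 1)).powersetCard (r + 1)).filter (fun A => (i : ℕ) ∈ A)).map
            Fin.valEmbedding = A := by
        ext x
        simp only [Finset.mem_map, Finset.mem_filter, Finset.mem_univ, true_and,
          Finset.mem_powersetCard, Fin.valEmbedding_apply]
        constructor
        · rintro ⟨i, hi, rfl⟩
          exact hi.2
        · intro hx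
          exact ⟨⟨x, Finset.mem_range.1 (hA.1 hx)⟩, ⟨hA, hx⟩, rfl⟩
      rw [← Finset.card_map Fin.valEmbedding, h1, hA.2]) ⟨∅, empty_mem_Fm _ _⟩
  refine hS.trans ?_
  have h2 : ∀ i : Fin (n + 1), ((Fm (Finset.range (n + 1)) (r + 1)).image fun F => F ∩
      ((Finset.range (n + 1)).powersetCard (r + 1)).filter (fun A => (i : ℕ) ∈ A)).card ≤
        cnt n r := by
    intro i
    have h3 : cnt n r = (Fm ((Finset.range (n + 1)).erase (i : ℕ)) r).card := by
      rw [Fm_card, Finset.card_erase_of_mem (Finset.mem_range.2 i.2), Finset.card_range]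
      rfl
    rw [h3]
    refine Finset.card_le_card_of_injOn (fun G => G.image (fun A => A.erase (i : ℕ))) ?_ ?_
    · intro G hG
      obtain ⟨F, hF, rfl⟩ := Finset.mem_image.1 (Finset.mem_coe.1 hG)
      exact Finset.mem_coe.2 (inter_con hF _)
    · intro G hG G' hG' heq
      obtain ⟨F, hF, rfl⟩ := Finset.mem_image.1 (Finset.mem_coe.1 hG)
      obtain ⟨F', hF', rfl⟩ := Finset.mem_image.1 (Finset.mem_coe.1 hG')
      simp only at heq
      have key : ∀ (X Y : Finset (Finset ℕ)), (∀ A ∈ X, (i : ℕ) ∈ A) → (∀ A ∈ Y, (i : ℕ) ∈ A) →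
          X.image (fun A => A.erase (i : ℕ)) = Y.image (fun A => A.erase (i : ℕ)) → X ⊆ Y := by
        intro X Y hX hY hXY A hA
        have h4 : A.erase (i : ℕ) ∈ Y.image (fun A => A.erase (i : ℕ)) := by
          rw [← hXY]
          exact Finset.mem_image_of_mem _ hA
        obtain ⟨B, hB, h5⟩ := Finset.mem_image.1 h4
        have h6 : B = A := by
          rw [← Finset.insert_erase (hX A hA), ← Finset.insert_erase (hY B hB), h5]
        rw [← h6]
        exact hB
      have m1 : ∀ A ∈ F ∩ ((Finset.range (n + 1)).powersetCard (r + 1)).filter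
          (fun A => (i : ℕ) ∈ A), (i : ℕ) ∈ A := by
        intro A hA
        exact (Finset.mem_filter.1 (Finset.mem_inter.1 hA).2).2
      have m2 : ∀ A ∈ F' ∩ ((Finset.range (n + 1)).powersetCard (r + 1)).filter
          (fun A => (i : ℕ) ∈ A), (i : ℕ) ∈ A := by
        intro A hA
        exact (Finset.mem_filter.1 (Finset.mem_inter.1 hA).2).2
      exact Finset.Subset.antisymm (key _ _ m1 m2 heq) (key _ _ m2 m1 heq.symm)
  calc _ ≤ ∏ _i : Fin (n + 1), cnt n r := Finset.prod_le_prod' fun i _ => h2 i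
    _ = cnt n r ^ (n + 1) := by simp

end Pool.Agent.LibRank66
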